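import Mathlib

set_option autoImplicit false

namespace Pool.Agent.Lib.MP_b21f3c_al

open Subgroup

/-- Averaging: a complement of an abelian normal subgroup of coprime order can be conjugated
into any other one. -/
theorem exists_conj_mem {G : Type} [Group G] [Finite G] (A R R' : Subgroup G) [A.Normal]
    (hcomm : ∀ a ∈ A, ∀ b ∈ A, a * b = b * a)
    (hcop : Nat.Coprime (Nat.card A) (Nat.card R))
    (hR' : R' ⊓ A = ⊥)
    (hex : ∀ r ∈ R, ∃ a ∈ A, a * r ∈ R') :
    ∃ b ∈ A, ∀ r ∈ R, b * r * b⁻¹ ∈ R' := by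
  classical
  letI : CommGroup A := { (inferInstance : Group A) with
    mul_comm := fun a b => Subtype.ext (hcomm a a.2 b b.2) }
  have : Fintype R := Fintype.ofFinite R
  choose c hcA hc using hex
  let c' : R → A := fun r => ⟨c r r.2, hcA r r.2⟩
  have hc' : ∀ r : R, ((c' r : A) : G) * r ∈ R' := fun r => hc r r.2
  have uniq : ∀ a b : A, ∀ r : G, (a : G) * r ∈ R' → (b : G) * r ∈ R' → a = b := by
    intro a b r ha hb
    have h1 : (a : G) * (b : G)⁻¹ ∈ R' ⊓ A := by
      refine ⟨?_, A.mul_mem a.2 (A.inv_mem b.2)⟩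
      have := R'.mul_mem ha (R'.inv_mem hb)
      simpa [mul_assoc] using this
    rw [hR', mem_bot, mul_inv_eq_one] at h1
    exact Subtype.ext h1
  have coc : ∀ r s : R, c' (r * s) = c' r * MulAut.conjNormal (r : G) (c' s) := by
    intro r s
    apply uniq _ _ ((r * s : R) : G) (hc' _)
    have := R'.mul_mem (hc' r) (hc' s)
    simpa [MulAut.conjNormal_apply, mul_assoc] using this
  let a : A := ∏ s : R, c' s
  have hcop' : (Nat.card A).Coprime (Nat.card R) := hcop
  have key : ∀ r : R, a = c' r ^ Nat.card R * MulAut.conjNormal (r : G) a := by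
    intro r
    calc a = ∏ s : R, c' (r * s) := (Equiv.prod_comp (Equiv.mulLeft r) c').symm
      _ = ∏ s : R, (c' r * MulAut.conjNormal (r : G) (c' s)) := by simp_rw [coc]
      _ = c' r ^ Nat.card R * MulAut.conjNormal (r : G) a := by
        rw [Finset.prod_mul_distrib, Finset.prod_const, Finset.card_univ,
          Nat.card_eq_fintype_card, map_prod]
  obtain ⟨b, hb⟩ := (powCoprime hcop').surjective a
  rw [powCoprime_apply] at hb
  refine ⟨b, b.2, fun r hr => ?_⟩
  have h1 := key ⟨r, hr⟩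
  have h2 : c' ⟨r, hr⟩ = b * (MulAut.conjNormal r b)⁻¹ := by
    apply (powCoprime hcop').injective
    rw [powCoprime_apply, powCoprime_apply, mul_pow, inv_pow, ← map_pow, hb]
    rw [eq_mul_inv_iff_mul_eq]
    exact h1.symm
  have h3 := hc' ⟨r, hr⟩
  rw [h2] at h3
  simpa [MulAut.conjNormal_apply, mul_assoc] using h3

/-- Normal complements. -/
theorem exists_normal_compl {G : Type} [Group G] [Finite G] (A R₁ : Subgroup G) [A.Normal]
    [hR₁ : R₁.Normal] (hAR : A ≤ R₁) (hcomm : ∀ a ∈ A, ∀ b ∈ A, a * b = b * a)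
    (hcop : Nat.Coprime (Nat.card A) (A.relIndex R₁))
    (htop : A ≤ frattini G ∨ (∀ a ∈ A, ∀ r ∈ R₁, a * r = r * a)) :
    ∃ R : Subgroup G, R.Normal ∧ R ≤ R₁ ∧ Nat.Coprime (Nat.card A) (Nat.card R) ∧
      (∀ x ∈ R₁, ∃ a ∈ A, ∃ r ∈ R, x = a * r) := by
  have hcardA : Nat.card (A.subgroupOf R₁) = Nat.card A :=
    Nat.card_congr (subgroupOfEquivOfLe hAR).toEquiv
  have hcop1 : Nat.Coprime (Nat.card (A.subgroupOf R₁)) (A.subgroupOf R₁).index := by
    rw [hcardA]; exact hcop
  obtain ⟨K, hK⟩ := exists_right_complement'_of_coprime hcop1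
  let R : Subgroup G := K.map R₁.subtype
  have hRle : R ≤ R₁ := by
    rintro _ ⟨x, hx, rfl⟩
    exact x.2
  have hcardR : Nat.card R = (A.subgroupOf R₁).index := by
    rw [hK.symm.index_eq_card]
    exact Nat.card_congr (K.equivMapOfInjective _ (subtype_injective _)).toEquiv.symm
  have hdis : R ⊓ A = ⊥ := by
    rw [eq_bot_iff]
    rintro _ ⟨⟨x, hx, rfl⟩, hxA⟩
    have : x ∈ (A.subgroupOf R₁) ⊓ K := ⟨hxA, hx⟩
    rw [hK.disjoint.eq_bot] at this
    rw [mem_bot] at this ⊢
    rw [this]; rfl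
  have hprod : ∀ x ∈ R₁, ∃ a ∈ A, ∃ r ∈ R, x = a * r := by
    intro x hx
    obtain ⟨⟨⟨a, ha⟩, ⟨r, hr⟩⟩, har⟩ := hK.surjective ⟨x, hx⟩
    refine ⟨a, ha, r, ⟨r, hr, rfl⟩, ?_⟩
    simpa using (congrArg Subtype.val har).symm
  have hcopR : Nat.Coprime (Nat.card A) (Nat.card R) := by
    rw [hcardR]; exact hcop
  refine ⟨R, ?_, hRle, hcopR, hprod⟩
  have hgen : normalizer (R : Set G) ⊔ A = ⊤ := by
    rw [eq_top_iff]
    intro g _
    let R' : Subgroup G := R.map (MulAut.conj g).toMonoidHom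
    have hR'dis : R' ⊓ A = ⊥ := by
      rw [eq_bot_iff]
      rintro _ ⟨⟨x, hx, rfl⟩, hxA⟩
      have hxA' : x ∈ A := by
        have h := (inferInstance : A.Normal).conj_mem _ hxA g⁻¹
        simpa [mul_assoc] using h
      have : x ∈ R ⊓ A := ⟨hx, hxA'⟩
      rw [hdis, mem_bot] at this
      subst this
      simp
    obtain ⟨b, hbA, hb⟩ := exists_conj_mem A R R' hcomm hcopR hR'dis (by
      intro r hr
      have h1 : g⁻¹ * r * g ∈ R₁ := by
        have h := hR₁.conj_mem r (hRle hr) g⁻¹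
        simpa using h
      obtain ⟨a, ha, r₁, hr₁, h2⟩ := hprod _ h1
      refine ⟨(g * a * g⁻¹)⁻¹, A.inv_mem ((inferInstance : A.Normal).conj_mem a ha g), ?_⟩
      refine ⟨r₁, hr₁, ?_⟩
      have h3 : r = g * (a * r₁) * g⁻¹ := by
        rw [← h2]; group
      simp only [MulEquiv.coe_toMonoidHom, MulAut.conj_apply]
      rw [h3]; group)
    have h4 : g⁻¹ * b ∈ normalizer (R : Set G) := by
      apply mem_normalizer_fintype
      intro r hr
      obtain ⟨r', hr', h5⟩ := hb r hr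
      simp only [MulEquiv.coe_toMonoidHom, MulAut.conj_apply] at h5
      have h6 : g⁻¹ * b * r * (g⁻¹ * b)⁻¹ = r' := by
        have : g⁻¹ * b * r * (g⁻¹ * b)⁻¹ = g⁻¹ * (b * r * b⁻¹) * g := by group
        rw [this, ← h5]; group
      rw [h6]
      exact hr'
    have h7 : g = b * (g⁻¹ * b)⁻¹ := by group
    rw [h7]
    exact mul_mem (mem_sup_right hbA) (inv_mem (mem_sup_left h4))
  rw [← normalizer_eq_top_iff]
  rcases htop with htop | htop
  · apply frattini_nongenerating
    rw [eq_top_iff, ← hgen]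
    exact sup_le_sup_left htop _
  · rw [eq_top_iff, ← hgen]
    apply sup_le le_rfl
    intro a ha
    apply mem_normalizer_fintype
    intro r hr
    rw [htop a ha r (hRle hr)]
    simpa using hr

end Pool.Agent.Lib.MP_b21f3c_al
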