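import Pool.Agent.Lib.MP_b21f3c_al.SS
import Pool.Agent.Lib.MP_b21f3c_al.Compl

set_option autoImplicit false

namespace Pool.Agent.Lib.MP_b21f3c_al

open Subgroup

/-- `G` has a normal `p`-nilpotent subgroup `K` (with normal `p`-complement `M`) such that
`G / K` has abelian Sylow `q`-subgroups. -/
def Loc (p q : ℕ) (G : Type) [Group G] : Prop :=
  ∃ K M : Subgroup G, K.Normal ∧ M.Normal ∧ (∀ x ∈ M, x ^ p = 1 → x = 1) ∧
    (∀ x ∈ K, ∃ n : ℕ, x ^ p ^ n ∈ M) ∧
    (∀ X : Subgroup G, (∀ x ∈ X, ∃ n : ℕ, x ^ q ^ n ∈ K) → ⁅X, X⁆ ≤ K)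

/-- The largest element. -/
def H0 (G : Type) [Group G] : Prop :=
  ∀ p q : ℕ, p.Prime → q.Prime → q ∣ p - 1 → Loc p q G

theorem Loc.of_injective {p q : ℕ} {G G' : Type} [Group G] [Group G'] (f : G' →* G)
    (hf : Function.Injective f) (h : Loc p q G) : Loc p q G' := by
  obtain ⟨K, M, hK, hM, h1, h2, h3⟩ := h
  refine ⟨K.comap f, M.comap f, inferInstance, inferInstance, ?_, ?_, ?_⟩
  · intro x hx hxp
    apply hf
    rw [map_one]
    apply h1 _ hx
    rw [← map_pow, hxp, map_one]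
  · intro x hx
    obtain ⟨n, hn⟩ := h2 _ hx
    exact ⟨n, by simpa using hn⟩
  · intro X hX
    rw [← Subgroup.map_le_iff_le_comap, Subgroup.map_commutator]
    apply h3
    rintro _ ⟨x, hx, rfl⟩
    obtain ⟨n, hn⟩ := hX x hx
    exact ⟨n, by simpa using hn⟩

theorem Loc.subdirect {p q : ℕ} {G G₁ G₂ : Type} [Group G] [Group G₁] [Group G₂]
    (f₁ : G →* G₁) (f₂ : G →* G₂)
    (hf : f₁.ker ⊓ f₂.ker = ⊥) (hG₁ : Loc p q G₁) (hG₂ : Loc p q G₂) : Loc p q G := by
  obtain ⟨K₁, M₁, hK₁, hM₁, h1₁, h2₁, h3₁⟩ := hG₁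
  obtain ⟨K₂, M₂, hK₂, hM₂, h1₂, h2₂, h3₂⟩ := hG₂
  refine ⟨K₁.comap f₁ ⊓ K₂.comap f₂, M₁.comap f₁ ⊓ M₂.comap f₂, inferInstance,
    inferInstance, ?_, ?_, ?_⟩
  · rintro x ⟨hx1, hx2⟩ hxp
    have : x ∈ f₁.ker ⊓ f₂.ker := by
      refine ⟨h1₁ _ hx1 ?_, h1₂ _ hx2 ?_⟩
      · rw [← map_pow, hxp, map_one]
      · rw [← map_pow, hxp, map_one]
    rw [hf] at this
    exact this
  · rintro x ⟨hx1, hx2⟩
    obtain ⟨n, hn⟩ := h2₁ _ hx1
    obtain ⟨m, hm⟩ := h2₂ _ hx2
    refine ⟨n + m, Subgroup.mem_inf.2 ⟨?_, ?_⟩⟩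
    · rw [mem_comap, map_pow, pow_add, pow_mul]
      exact M₁.pow_mem hn _
    · rw [mem_comap, map_pow, add_comm, pow_add, pow_mul]
      exact M₂.pow_mem hm _
  · intro X hX
    apply le_inf
    · rw [← Subgroup.map_le_iff_le_comap, Subgroup.map_commutator]
      apply h3₁
      rintro _ ⟨x, hx, rfl⟩
      obtain ⟨n, hn⟩ := hX x hx
      exact ⟨n, by simpa using hn.1⟩
    · rw [← Subgroup.map_le_iff_le_comap, Subgroup.map_commutator]
      apply h3₂
      rintro _ ⟨x, hx, rfl⟩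
      obtain ⟨n, hn⟩ := hX x hx
      exact ⟨n, by simpa using hn.2⟩

/-- Sylow lifting: if commutators of `q`-subgroups of `G` are mapped into `K'`, then `G'/K'` has
abelian Sylow `q`-subgroups. -/
theorem absyl_of_sylow {q : ℕ} (hq : q.Prime) {G G' : Type} [Group G] [Group G'] [Finite G]
    (f : G →* G') (hf : Function.Surjective f) (K' : Subgroup G') [K'.Normal]
    (h : ∀ Q : Subgroup G, IsPGroup q Q → (⁅Q, Q⁆).map f ≤ K') :
    ∀ X : Subgroup G', (∀ x ∈ X, ∃ n : ℕ, x ^ q ^ n ∈ K') → ⁅X, X⁆ ≤ K' := by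
  intro X hX
  have : Fact q.Prime := ⟨hq⟩
  let F : G →* G' ⧸ K' := (QuotientGroup.mk' K').comp f
  have hF : Function.Surjective F := (QuotientGroup.mk'_surjective K').comp hf
  have hXq : IsPGroup q (X.map (QuotientGroup.mk' K')) := by
    rintro ⟨_, ⟨x, hx, rfl⟩⟩
    obtain ⟨n, hn⟩ := hX x hx
    refine ⟨n, Subtype.ext ?_⟩
    have h1 : (QuotientGroup.mk' K') (x ^ q ^ n) = 1 := (QuotientGroup.eq_one_iff _).2 hn
    simpa using h1
  obtain ⟨S', hS'⟩ := hXq.exists_le_sylow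
  obtain ⟨S, hS⟩ := Sylow.mapSurjective_surjective hF q S'
  have h2 : (⁅X, X⁆).map (QuotientGroup.mk' K') ≤ ⊥ := by
    rw [Subgroup.map_commutator]
    refine (Subgroup.commutator_mono hS' hS').trans ?_
    have h3 : (S' : Subgroup (G' ⧸ K')) = (S : Subgroup G).map F := by
      rw [← hS]
      exact Sylow.coe_mapSurjective hF S
    rw [h3, ← Subgroup.map_commutator]
    rintro _ ⟨x, hx, rfl⟩
    have h4 := h S S.isPGroup' ⟨x, hx, rfl⟩
    rw [mem_bot]
    exact (QuotientGroup.eq_one_iff _).2 h4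
  intro x hx
  have h5 := h2 ⟨x, hx, rfl⟩
  rw [mem_bot] at h5
  exact (QuotientGroup.eq_one_iff _).1 h5

theorem eq_one_of_coprime_pow {G : Type} [Group G] {x : G} {p m : ℕ} (h1 : x ^ p = 1)
    (h2 : x ^ m = 1) (h : Nat.Coprime p m) : x = 1 := by
  have h3 := Nat.dvd_gcd (orderOf_dvd_of_pow_eq_one h1) (orderOf_dvd_of_pow_eq_one h2)
  rw [h.gcd_eq_one] at h3
  exact orderOf_eq_one_iff.1 (Nat.dvd_one.1 h3)

theorem coprime_orderOf {G : Type} [Group G] [Finite G] {p : ℕ} (hp : p.Prime) (M : Subgroup G)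
    (h : ∀ x ∈ M, x ^ p = 1 → x = 1) {x : G} (hx : x ∈ M) : Nat.Coprime p (orderOf x) := by
  rw [Nat.Prime.coprime_iff_not_dvd hp]
  intro hdvd
  have h1 : orderOf (x ^ (orderOf x / p)) = p :=
    orderOf_pow_orderOf_div (orderOf_pos x).ne' hdvd
  have h2 : x ^ (orderOf x / p) = 1 := by
    apply h _ (M.pow_mem hx _)
    conv_lhs => rw [← h1]
    rw [h1]
    have := pow_orderOf_eq_one (x ^ (orderOf x / p))
    rwa [h1] at this
  rw [h2, orderOf_one] at h1
  exact hp.one_lt.ne h1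

theorem Loc.of_surjective {p q : ℕ} (hp : p.Prime) (hq : q.Prime) {G G' : Type} [Group G]
    [Group G'] [Finite G] (f : G →* G') (hf : Function.Surjective f) (h : Loc p q G) :
    Loc p q G' := by
  obtain ⟨K, M, hK, hM, h1, h2, h3⟩ := h
  have hK' : (K.map f).Normal := Subgroup.Normal.map hK f hf
  have hM' : (M.map f).Normal := Subgroup.Normal.map hM f hf
  refine ⟨K.map f, M.map f, hK', hM', ?_, ?_, ?_⟩
  · rintro _ ⟨x, hx, rfl⟩ hxp
    apply eq_one_of_coprime_pow hxp (m := orderOf x) _ (coprime_orderOf hp M h1 hx)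
    rw [← map_pow, pow_orderOf_eq_one, map_one]
  · rintro _ ⟨x, hx, rfl⟩
    obtain ⟨n, hn⟩ := h2 x hx
    exact ⟨n, ⟨_, hn, by simp⟩⟩
  · apply absyl_of_sylow hq f hf
    intro Q hQ
    apply Subgroup.map_mono
    apply h3
    intro x hx
    obtain ⟨n, hn⟩ := hQ ⟨x, hx⟩
    refine ⟨n, ?_⟩
    have : x ^ q ^ n = 1 := by simpa using congrArg Subtype.val hn
    rw [this]
    exact K.one_mem

/-- The basic extension step. -/
theorem Loc.of_quot {p q r : ℕ} (hp : p.Prime) (hr : r.Prime)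
    {G : Type} [Group G] [Finite G] (A C : Subgroup G) [A.Normal] [C.Normal]
    (hcomm : ∀ a ∈ A, ∀ b ∈ A, a * b = b * a) (hAr : ∀ a ∈ A, a ^ r = 1)
    (hAC : A ≤ C) (hC : ⁅(⊤ : Subgroup G), ⊤⁆ ≤ C)
    (htop : A ≤ frattini G ∨ ∀ a ∈ A, ∀ c ∈ C, a * c = c * a)
    (h : Loc p q (G ⧸ A)) : Loc p q G := by
  obtain ⟨K', M', hK', hM', h1, h2, h3⟩ := h
  have hcommX : ∀ X : Subgroup G, (∀ x ∈ X, ∃ n : ℕ,
      x ^ q ^ n ∈ K'.comap (QuotientGroup.mk' A) ⊓ C) →
      ⁅X, X⁆ ≤ K'.comap (QuotientGroup.mk' A) ⊓ C := by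
    intro X hX
    apply le_inf
    · rw [← Subgroup.map_le_iff_le_comap, Subgroup.map_commutator]
      apply h3
      rintro _ ⟨x, hx, rfl⟩
      obtain ⟨n, hn⟩ := hX x hx
      exact ⟨n, by simpa using hn.1⟩
    · exact (Subgroup.commutator_mono le_top le_top).trans hC
  by_cases hrp : r = p
  · subst hrp
    set M₁ : Subgroup G := M'.comap (QuotientGroup.mk' A) ⊓ C with hM₁
    have hAM₁ : A ≤ M₁ := by
      apply le_inf _ hAC
      intro a ha
      rw [mem_comap]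
      have : QuotientGroup.mk' A a = 1 := (QuotientGroup.eq_one_iff _).2 ha
      rw [this]
      exact M'.one_mem
    have hnd : ¬ r ∣ A.relIndex M₁ := by
      intro hdvd
      have hf : Fact r.Prime := ⟨hr⟩
      have hdvd' : r ∣ Nat.card (M₁ ⧸ A.subgroupOf M₁) := hdvd
      obtain ⟨y, hy⟩ := exists_prime_orderOf_dvd_card' r hdvd'
      obtain ⟨⟨x, hx⟩, rfl⟩ := QuotientGroup.mk'_surjective _ y
      have h5 : x ^ r ∈ A := by
        have h6 := pow_orderOf_eq_one (QuotientGroup.mk' (A.subgroupOf M₁) ⟨x, hx⟩)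
        rw [hy, ← map_pow] at h6
        have h7 := (QuotientGroup.eq_one_iff _).1 h6
        simpa [mem_subgroupOf] using h7
      have h8 : x ∈ A := by
        rw [← QuotientGroup.eq_one_iff (N := A)]
        apply h1 _ hx.1
        rw [← QuotientGroup.eq_one_iff (N := A)] at h5
        simpa using h5
      have h9 : QuotientGroup.mk' (A.subgroupOf M₁) ⟨x, hx⟩ = 1 := by
        apply (QuotientGroup.eq_one_iff _).2
        rw [mem_subgroupOf]
        exact h8
      rw [h9, orderOf_one] at hy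
      exact hr.one_lt.ne hy
    have hcop : Nat.Coprime (Nat.card A) (A.relIndex M₁) := by
      have hpA : IsPGroup r A := by
        intro a
        refine ⟨1, Subtype.ext ?_⟩
        simpa using hAr a a.2
      have hf : Fact r.Prime := ⟨hr⟩
      obtain ⟨k, hk⟩ := IsPGroup.iff_card.1 hpA
      rw [hk]
      apply Nat.Coprime.pow_left
      rwa [Nat.Prime.coprime_iff_not_dvd hr]
    have htop' : A ≤ frattini G ∨ ∀ a ∈ A, ∀ r ∈ M₁, a * r = r * a := by
      rcases htop with h | h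
      · exact Or.inl h
      · exact Or.inr fun a ha c hc => h a ha c hc.2
    obtain ⟨R, hRn, hRle, hRcop, hRprod⟩ :=
      exists_normal_compl A M₁ hAM₁ hcomm hcop htop'
    refine ⟨K'.comap (QuotientGroup.mk' A) ⊓ C, R, inferInstance, hRn, ?_, ?_, hcommX⟩
    · intro x hx hxr
      by_contra hne
      -- `x` has order `r`, lies in `M₁`; so it lies in `A`
      have hxM := hRle hx
      have hxA : x ∈ A := by
        rw [← QuotientGroup.eq_one_iff (N := A)]
        apply h1 _ hxM.1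
        rw [← map_pow, hxr, map_one]
      have hord : orderOf x = r := by
        rcases (Nat.dvd_prime hr).1 (orderOf_dvd_of_pow_eq_one hxr) with h | h
        · exact absurd (orderOf_eq_one_iff.1 h) hne
        · exact h
      have h10 : r ∣ Nat.card A := by
        rw [← hord]
        exact (Subgroup.orderOf_mk x hxA) ▸ orderOf_dvd_natCard (⟨x, hxA⟩ : A)
      have h11 : r ∣ Nat.card R := by
        rw [← hord]
        exact (Subgroup.orderOf_mk x hx) ▸ orderOf_dvd_natCard (⟨x, hx⟩ : R)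
      have h12 := Nat.dvd_gcd h10 h11
      rw [hRcop.gcd_eq_one] at h12
      exact hr.one_lt.ne' (Nat.dvd_one.1 h12)
    · rintro x ⟨hxK, hxC⟩
      obtain ⟨n, hn⟩ := h2 _ hxK
      have hn' : x ^ r ^ n ∈ M₁ := by
        refine Subgroup.mem_inf.2 ⟨?_, C.pow_mem hxC _⟩
        rw [mem_comap, map_pow]
        exact hn
      obtain ⟨a, ha, s, hs, has⟩ := hRprod _ hn'
      refine ⟨n + 1, ?_⟩
      rw [← QuotientGroup.eq_one_iff (N := R)]
      rw [pow_succ, pow_mul, has]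
      have h13 : ((a * s : G) : G ⧸ R) = (a : G ⧸ R) := by
        rw [QuotientGroup.mk_mul, (QuotientGroup.eq_one_iff (N := R) s).2 hs, mul_one]
      rw [QuotientGroup.mk_pow, h13, ← QuotientGroup.mk_pow, hAr a ha, QuotientGroup.mk_one]
  · refine ⟨K'.comap (QuotientGroup.mk' A) ⊓ C, M'.comap (QuotientGroup.mk' A) ⊓ C,
      inferInstance, inferInstance, ?_, ?_, hcommX⟩
    · intro x hx hxp
      have hxA : x ∈ A := by
        rw [← QuotientGroup.eq_one_iff (N := A)]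
        apply h1 _ hx.1
        rw [← map_pow, hxp, map_one]
      exact eq_one_of_coprime_pow hxp (hAr x hxA) ((Nat.coprime_primes hp hr).2 (Ne.symm hrp))
    · rintro x ⟨hxK, hxC⟩
      obtain ⟨n, hn⟩ := h2 _ hxK
      refine ⟨n, Subgroup.mem_inf.2 ⟨?_, C.pow_mem hxC _⟩⟩
      rw [mem_comap, map_pow]
      exact hn

end Pool.Agent.Lib.MP_b21f3c_al
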