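import Pool.Agent.Lib.MP_b21f3c_al.Eig
import Pool.Agent.Lib.MP_b21f3c_al.Loc

set_option autoImplicit false

namespace Pool.Agent.Lib.MP_b21f3c_al

open Subgroup

theorem exists_min_normal {G : Type} [Group G] [Finite G] (B : Subgroup G) [hBn : B.Normal]
    (hB : B ≠ ⊥) : ∃ N : Subgroup G, N.Normal ∧ N ≤ B ∧ N ≠ ⊥ ∧
      ∀ L : Subgroup G, L.Normal → L ≤ N → L = ⊥ ∨ L = N := by
  obtain ⟨N, ⟨h1, h2, h3⟩, hmin⟩ := wellFounded_lt.has_min
    {N : Subgroup G | N.Normal ∧ N ≤ B ∧ N ≠ ⊥} ⟨B, hBn, le_rfl, hB⟩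
  refine ⟨N, h1, h2, h3, fun L hL hle => ?_⟩
  by_contra hcon
  push Not at hcon
  exact hmin L ⟨hL, hle.trans h2, hcon.1⟩ (lt_of_le_of_ne hle hcon.2)

/-- Commutators centralize finite cyclic normalized subgroups. -/
theorem commutator_comm {G : Type} [Group G] [Finite G] (y g h : G)
    (hn : ∀ u ∈ closure {g, h}, u * y * u⁻¹ ∈ zpowers y) : Commute (g * h * g⁻¹ * h⁻¹) y := by
  have hg : g ∈ closure {g, h} := subset_closure (by simp)
  have hh : h ∈ closure {g, h} := subset_closure (by simp)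
  obtain ⟨k, hk⟩ := hn g hg
  obtain ⟨l, hl⟩ := hn h hh
  simp only at hk hl
  have e1 : g * h * y * h⁻¹ * g⁻¹ = h * g * y * g⁻¹ * h⁻¹ := by
    have a1 : g * h * y * h⁻¹ * g⁻¹ = g * (h * y * h⁻¹) * g⁻¹ := by group
    have a2 : h * g * y * g⁻¹ * h⁻¹ = h * (g * y * g⁻¹) * h⁻¹ := by group
    rw [a1, a2, ← hl, ← hk, ← conj_zpow, ← conj_zpow, ← hk, ← hl, ← zpow_mul, ← zpow_mul,
      mul_comm]
  have e2 : Commute (g * h * g⁻¹ * h⁻¹) (h * g * y * g⁻¹ * h⁻¹) := by
    rw [Commute, SemiconjBy]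
    have : g * h * g⁻¹ * h⁻¹ * (h * g * y * g⁻¹ * h⁻¹) =
      (g * h * y * h⁻¹ * g⁻¹) * (g * h * g⁻¹ * h⁻¹) := by group
    rw [this, e1]
  have e3 : y ∈ zpowers (h * g * y * g⁻¹ * h⁻¹) := by
    have h1 : zpowers (h * g * y * g⁻¹ * h⁻¹) ≤ zpowers y := by
      rw [zpowers_le]
      have := hn (h * g) (mul_mem hh hg)
      simpa [mul_assoc] using this
    have h2 : Nat.card (zpowers y) ≤ Nat.card (zpowers (h * g * y * g⁻¹ * h⁻¹)) := by
      rw [Nat.card_zpowers, Nat.card_zpowers]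
      have : h * g * y * g⁻¹ * h⁻¹ = (MulAut.conj (h * g)) y := by
        simp [mul_assoc]
      rw [this, MulEquiv.orderOf_eq]
    rw [Subgroup.eq_of_le_of_card_ge h1 h2]
    exact mem_zpowers y
  obtain ⟨j, hj⟩ := e3
  rw [← hj]
  exact e2.zpow_right j

/-- `a ^ (p-1)` centralizes a cyclic subgroup of prime order `p` normalized by `a`. -/
theorem pow_comm {G : Type} [Group G] {p : ℕ} (hp : p.Prime) (y a : G) (hy : y ^ p = 1)
    (hn : a * y * a⁻¹ ∈ zpowers y) : Commute (a ^ (p - 1)) y := by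
  by_cases hy1 : y = 1
  · rw [hy1]
    exact Commute.one_right _
  obtain ⟨k, hk⟩ := hn
  simp only at hk
  have h1 : ∀ m : ℕ, a ^ m * y * (a ^ m)⁻¹ = y ^ (k ^ m) := by
    intro m
    induction m with
    | zero => simp
    | succ m ih =>
      have : a ^ (m + 1) * y * (a ^ (m + 1))⁻¹ = a * (a ^ m * y * (a ^ m)⁻¹) * a⁻¹ := by
        rw [pow_succ']
        group
      rw [this, ih, ← conj_zpow, ← hk, ← zpow_mul, pow_succ', mul_comm]
  have hord : orderOf y = p := by
    rcases (Nat.dvd_prime hp).1 (orderOf_dvd_of_pow_eq_one hy) with h | h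
    · exact absurd (orderOf_eq_one_iff.1 h) hy1
    · exact h
  have hkp : IsCoprime k (p : ℤ) := by
    rw [isCoprime_comm, Prime.coprime_iff_not_dvd (Nat.prime_iff_prime_int.1 hp)]
    intro hdvd
    have h2 : y ^ k = 1 := by
      rw [← orderOf_dvd_iff_zpow_eq_one, hord]
      exact hdvd
    rw [h2] at hk
    apply hy1
    have h3 : a * y * a⁻¹ = 1 := hk.symm
    rw [mul_inv_eq_one] at h3
    exact mul_eq_left.1 h3
  have hfermat : k ^ (p - 1) ≡ 1 [ZMOD p] := Int.ModEq.pow_card_sub_one_eq_one hp hkp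
  have h4 : y ^ (k ^ (p - 1)) = y := by
    have h5 : y ^ (k ^ (p - 1)) = y ^ (1 : ℤ) := by
      rw [zpow_eq_zpow_iff_modEq, hord]
      exact hfermat
    rw [h5, zpow_one]
  have h6 := h1 (p - 1)
  rw [h4, mul_inv_eq_iff_eq_mul] at h6
  exact h6

/-- Minimal normal subgroups inside a normal supersoluble subgroup. -/
theorem min_normal_in_SS {G : Type} [Group G] [Finite G] (A N : Subgroup G) [hA : A.Normal]
    [hN : N.Normal] (hSS : SS A) (hle : N ≤ A) (hne : N ≠ ⊥)
    (hmin : ∀ L : Subgroup G, L.Normal → L ≤ N → L = ⊥ ∨ L = N) :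
    ∃ p : ℕ, p.Prime ∧ (∀ x ∈ N, x ^ p = 1) ∧ (∀ x ∈ N, ∀ y ∈ N, x * y = y * x) ∧
      (∀ a ∈ A, ∀ x ∈ N, Commute (a ^ (p - 1)) x) ∧
      (∀ a ∈ A, ∀ b ∈ A, ∀ x ∈ N, Commute (a * b * a⁻¹ * b⁻¹) x) := by
  have hne' : N.subgroupOf A ≠ ⊥ := by
    intro h
    apply hne
    rw [eq_bot_iff]
    intro x hx
    have : (⟨x, hle hx⟩ : A) ∈ N.subgroupOf A := hx
    rw [h, mem_bot] at this
    rw [mem_bot]
    exact congrArg Subtype.val this
  obtain ⟨x, hxN, hx1, hxn⟩ := hSS.exists_zpowers (N.subgroupOf A) hne'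
  have hord : orderOf x ≠ 1 := fun h => hx1 (orderOf_eq_one_iff.1 h)
  obtain ⟨p, hp, hdvd⟩ := Nat.exists_prime_and_dvd hord
  set y' : A := x ^ (orderOf x / p) with hy'
  have hyord : orderOf y' = p := orderOf_pow_orderOf_div (orderOf_pos x).ne' hdvd
  have hyp : y' ^ p = 1 := by rw [← hyord]; exact pow_orderOf_eq_one y'
  set y : G := (y' : G) with hy
  have hyN : y ∈ N := by
    have : y' ∈ N.subgroupOf A := pow_mem hxN _
    exact this
  have hy1 : y ≠ 1 := by
    intro h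
    have : y' = 1 := Subtype.ext h
    rw [this, orderOf_one] at hyord
    exact hp.one_lt.ne hyord
  have hyp' : y ^ p = 1 := by
    have := congrArg Subtype.val hyp
    simpa using this
  have hnorm : ∀ a ∈ A, a * y * a⁻¹ ∈ zpowers y := by
    intro a ha
    obtain ⟨k, hk⟩ := hxn.conj_mem x (mem_zpowers x) ⟨a, ha⟩
    refine ⟨k, ?_⟩
    have h1 : (⟨a, ha⟩ : A) * y' * (⟨a, ha⟩ : A)⁻¹ = y' ^ k := by
      simp only at hk
      rw [hy', ← conj_pow, ← hk, ← zpow_natCast, ← zpow_natCast, ← zpow_mul, ← zpow_mul,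
        mul_comm]
    have h2 := congrArg Subtype.val h1
    simpa using h2.symm
  let D : Subgroup G :=
    { carrier := {x | x ∈ N ∧ (∀ a ∈ A, Commute (a ^ (p - 1)) x) ∧
        (∀ a ∈ A, ∀ b ∈ A, Commute (a * b * a⁻¹ * b⁻¹) x)}
      one_mem' := ⟨N.one_mem, fun _ _ => Commute.one_right _, fun _ _ _ _ => Commute.one_right _⟩
      mul_mem' := by
        rintro u v ⟨hu, hu2, hu3⟩ ⟨hv, hv2, hv3⟩
        exact ⟨N.mul_mem hu hv, fun a ha => (hu2 a ha).mul_right (hv2 a ha),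
          fun a ha b hb => (hu3 a ha b hb).mul_right (hv3 a ha b hb)⟩
      inv_mem' := by
        rintro u ⟨hu, hu2, hu3⟩
        exact ⟨N.inv_mem hu, fun a ha => (hu2 a ha).inv_right,
          fun a ha b hb => (hu3 a ha b hb).inv_right⟩ }
  have hDn : D.Normal := by
    constructor
    rintro u ⟨hu, hu2, hu3⟩ g
    refine ⟨hN.conj_mem u hu g, fun a ha => ?_, fun a ha b hb => ?_⟩
    · have h1 := hu2 (g⁻¹ * a * g) (by simpa using hA.conj_mem a ha g⁻¹)
      have h2 : Commute (g * (g⁻¹ * a * g) ^ (p - 1) * g⁻¹) (g * u * g⁻¹) :=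
        (Commute.conj_iff g).2 h1
      have h3 : g * (g⁻¹ * a * g) ^ (p - 1) * g⁻¹ = a ^ (p - 1) := by
        rw [← conj_pow]
        congr 1
        group
      rwa [h3] at h2
    · have h1 := hu3 (g⁻¹ * a * g) (by simpa using hA.conj_mem a ha g⁻¹)
        (g⁻¹ * b * g) (by simpa using hA.conj_mem b hb g⁻¹)
      have h2 := (Commute.conj_iff g).2 h1
      have h3 : g * (g⁻¹ * a * g * (g⁻¹ * b * g) * (g⁻¹ * a * g)⁻¹ * (g⁻¹ * b * g)⁻¹) * g⁻¹ =
        a * b * a⁻¹ * b⁻¹ := by group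
      rwa [h3] at h2
  have hyD : y ∈ D := by
    refine ⟨hyN, fun a ha => pow_comm hp y a hyp' (hnorm a ha), fun a ha b hb => ?_⟩
    apply commutator_comm
    intro u hu
    apply hnorm
    have : closure {a, b} ≤ A := by
      rw [closure_le]
      intro t ht
      rcases ht with rfl | rfl
      · exact ha
      · exact hb
    exact this hu
  have hDN : D = N := by
    rcases hmin D hDn (fun x hx => hx.1) with h | h
    · rw [h, mem_bot] at hyD
      exact absurd hyD hy1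
    · exact h
  -- `N` is abelian
  let Z : Subgroup G :=
    { carrier := {x | x ∈ N ∧ ∀ y ∈ N, Commute x y}
      one_mem' := ⟨N.one_mem, fun _ _ => Commute.one_left _⟩
      mul_mem' := by
        rintro u v ⟨hu, hu2⟩ ⟨hv, hv2⟩
        exact ⟨N.mul_mem hu hv, fun a ha => (hu2 a ha).mul_left (hv2 a ha)⟩
      inv_mem' := by
        rintro u ⟨hu, hu2⟩
        exact ⟨N.inv_mem hu, fun a ha => (hu2 a ha).inv_left⟩ }
  have hZn : Z.Normal := by
    constructor
    rintro u ⟨hu, hu2⟩ g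
    refine ⟨hN.conj_mem u hu g, fun a ha => ?_⟩
    have h1 := hu2 (g⁻¹ * a * g) (by simpa using hN.conj_mem a ha g⁻¹)
    have h2 := (Commute.conj_iff g).2 h1
    have h3 : g * (g⁻¹ * a * g) * g⁻¹ = a := by group
    rwa [h3] at h2
  have hab : ∀ x ∈ N, ∀ y ∈ N, x * y = y * x := by
    rcases hmin Z hZn (fun x hx => hx.1) with h | h
    · intro u hu v hv
      have h1 : u * v * u⁻¹ * v⁻¹ ∈ Z := by
        refine ⟨N.mul_mem (N.mul_mem (N.mul_mem hu hv) (N.inv_mem hu)) (N.inv_mem hv), ?_⟩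
        intro w hw
        rw [← hDN] at hw
        exact hw.2.2 u (hle hu) v (hle hv)
      rw [h, mem_bot, mul_inv_eq_one, mul_inv_eq_iff_eq_mul] at h1
      exact h1
    · intro u hu v hv
      rw [← h] at hu
      exact hu.2 v hv
  -- exponent `p`
  let E : Subgroup G :=
    { carrier := {x | x ∈ N ∧ x ^ p = 1}
      one_mem' := ⟨N.one_mem, one_pow _⟩
      mul_mem' := by
        rintro u v ⟨hu, hu2⟩ ⟨hv, hv2⟩
        have huv : Commute u v := hab u hu v hv
        exact ⟨N.mul_mem hu hv, by rw [huv.mul_pow, hu2, hv2, one_mul]⟩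
      inv_mem' := by
        rintro u ⟨hu, hu2⟩
        exact ⟨N.inv_mem hu, by rw [inv_pow, hu2, inv_one]⟩ }
  have hEn : E.Normal := by
    constructor
    rintro u ⟨hu, hu2⟩ g
    exact ⟨hN.conj_mem u hu g, by rw [conj_pow, hu2]; simp⟩
  have hEN : E = N := by
    rcases hmin E hEn (fun x hx => hx.1) with h | h
    · have : y ∈ E := ⟨hyN, hyp'⟩
      rw [h, mem_bot] at this
      exact absurd this hy1
    · exact h
  refine ⟨p, hp, ?_, hab, ?_, ?_⟩
  · intro x hx
    rw [← hEN] at hx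
    exact hx.2
  · intro a ha x hx
    rw [← hDN] at hx
    exact hx.2.1 a ha
  · intro a ha b hb x hx
    rw [← hDN] at hx
    exact hx.2.2 a ha b hb

theorem central_comm_pow {G : Type} [Group G] {a b c : G} (hab : a * b = c * b * a)
    (hac : Commute a c) (hbc : Commute b c) (i j : ℕ) :
    a ^ i * b ^ j = c ^ (i * j) * b ^ j * a ^ i := by
  have h1 : ∀ i : ℕ, a ^ i * b = c ^ i * b * a ^ i := by
    intro i
    induction i with
    | zero => simp
    | succ i ih =>
      calc a ^ (i + 1) * b = a ^ i * (a * b) := by rw [pow_succ, mul_assoc]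
        _ = a ^ i * (c * b * a) := by rw [hab]
        _ = (a ^ i * c) * b * a := by simp only [mul_assoc]
        _ = (c * a ^ i) * b * a := by rw [(hac.pow_left i).eq]
        _ = c * (a ^ i * b) * a := by simp only [mul_assoc]
        _ = c * (c ^ i * b * a ^ i) * a := by rw [ih]
        _ = c ^ (i + 1) * b * a ^ (i + 1) := by
          rw [pow_succ' c, pow_succ a]; simp only [mul_assoc]
  induction j with
  | zero => simp
  | succ j ih =>
    calc a ^ i * b ^ (j + 1) = (a ^ i * b ^ j) * b := by rw [pow_succ, mul_assoc]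
      _ = (c ^ (i * j) * b ^ j * a ^ i) * b := by rw [ih]
      _ = c ^ (i * j) * b ^ j * (a ^ i * b) := by simp only [mul_assoc]
      _ = c ^ (i * j) * b ^ j * (c ^ i * b * a ^ i) := by rw [h1]
      _ = c ^ (i * j) * (b ^ j * c ^ i) * b * a ^ i := by simp only [mul_assoc]
      _ = c ^ (i * j) * (c ^ i * b ^ j) * b * a ^ i := by
        rw [((hbc.pow_left j).pow_right i).eq]
      _ = (c ^ (i * j) * c ^ i) * (b ^ j * b) * a ^ i := by simp only [mul_assoc]
      _ = c ^ (i * (j + 1)) * b ^ (j + 1) * a ^ i := by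
        rw [← pow_add, ← pow_succ]; rfl

end Pool.Agent.Lib.MP_b21f3c_al
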