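import Pool.Agent.Lib.MP_b21f3c_al.Cls
import Pool.Agent.Lib.MP_b21f3c_al.Rad

set_option autoImplicit false

namespace Pool.Agent.Lib.MP_b21f3c_al

open Subgroup

/-- Lemma D. -/
theorem SS.of_abelian_by {p : ℕ} (hp : p.Prime) (n : ℕ) :
    ∀ (G : Type) [Group G] [Finite G] (B : Subgroup G) [B.Normal], Nat.card G ≤ n →
      (∀ a ∈ B, ∀ b ∈ B, a * b = b * a) → (∀ x ∈ B, x ^ p = 1) →
      (∀ g h : G, g * h * g⁻¹ * h⁻¹ ∈ B) →
      (∀ g : G, ∀ x ∈ B, g ^ (p - 1) * x * (g ^ (p - 1))⁻¹ = x) → SS G := by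
  induction n with
  | zero =>
    intro G _ _ B _ hc
    have : 0 < Nat.card G := Nat.card_pos
    omega
  | succ n ih =>
    intro G _ _ B hBn hc hab hpow hcomm hact
    rcases subsingleton_or_nontrivial G with hs | hnt
    · exact SS.of_subsingleton hs
    suffices hclaim : ∃ x : G, x ≠ 1 ∧ (zpowers x).Normal by
      obtain ⟨x, hx1, hxn⟩ := hclaim
      have hne : zpowers x ≠ ⊥ := by
        intro h
        exact hx1 (zpowers_eq_bot.1 h)
      have hlt : Nat.card (G ⧸ zpowers x) ≤ n := by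
        have h1 := Subgroup.card_eq_card_quotient_mul_card_subgroup (zpowers x)
        have h2 : 0 < Nat.card (G ⧸ zpowers x) := Nat.card_pos
        have h3 : 1 < Nat.card (zpowers x) := (Subgroup.one_lt_card_iff_ne_bot _).2 hne
        nlinarith
      have hBn' : (B.map (QuotientGroup.mk' (zpowers x))).Normal :=
        Subgroup.Normal.map hBn _ (QuotientGroup.mk'_surjective _)
      apply SS.of_zpowers x
      refine ih (G ⧸ zpowers x) (B.map (QuotientGroup.mk' (zpowers x))) hlt ?_ ?_ ?_ ?_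
      · rintro _ ⟨a, ha, rfl⟩ _ ⟨b, hb, rfl⟩
        rw [← map_mul, hab a ha b hb, map_mul]
      · rintro _ ⟨a, ha, rfl⟩
        rw [← map_pow, hpow a ha, map_one]
      · intro g h
        obtain ⟨g, rfl⟩ := QuotientGroup.mk'_surjective _ g
        obtain ⟨h, rfl⟩ := QuotientGroup.mk'_surjective _ h
        exact ⟨g * h * g⁻¹ * h⁻¹, hcomm g h, by simp⟩
      · intro g
        obtain ⟨g, rfl⟩ := QuotientGroup.mk'_surjective _ g
        rintro _ ⟨a, ha, rfl⟩
        rw [← map_pow, ← map_inv, ← map_mul, ← map_mul, hact g a ha]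
    by_cases hB : B = ⊥
    · -- abelian group
      have hG : ∀ g h : G, g * h = h * g := by
        intro g h
        have h1 := hcomm g h
        rw [hB, mem_bot, mul_inv_eq_one, mul_inv_eq_iff_eq_mul] at h1
        exact h1
      obtain ⟨x, hx⟩ := exists_ne (1 : G)
      refine ⟨x, hx, ⟨?_⟩⟩
      intro y hy g
      rw [hG g y, mul_inv_cancel_right]
      exact hy
    · obtain ⟨N, hN, hNB, hNne, hmin⟩ := exists_min_normal B hB
      obtain ⟨x, hx⟩ := (Subgroup.ne_bot_iff_exists_ne_one).1 hNne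
      refine ⟨x, fun h => hx (Subtype.ext h), ?_⟩
      refine zpowers_normal_of_minimal hp N hNne hmin
        (fun a ha b hb => hab a (hNB ha) b (hNB hb)) (fun a ha => hpow a (hNB ha)) ?_
        (fun g y hy => hact g y (hNB hy)) x x.2
      intro g h y hy
      have h1 : h⁻¹ * g⁻¹ * h * g ∈ B := by
        have := hcomm h⁻¹ g⁻¹
        simpa using this
      have h2 := hab _ h1 y (hNB hy)
      have h3 : g * h = (h * g) * (h⁻¹ * g⁻¹ * h * g)⁻¹ := by group
      have h4 : (h⁻¹ * g⁻¹ * h * g)⁻¹ * y * (h⁻¹ * g⁻¹ * h * g) = y := by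
        rw [mul_assoc, ← h2, inv_mul_cancel_left]
      calc (g * h) * y * (g * h)⁻¹
          = (h * g) * ((h⁻¹ * g⁻¹ * h * g)⁻¹ * y * (h⁻¹ * g⁻¹ * h * g)) * (h * g)⁻¹ := by
            group
        _ = (h * g) * y * (h * g)⁻¹ := by rw [h4]

/-- Lemma E. -/
theorem SS.commute_of {G : Type} [Group G] [Finite G] (h : SS G) (B : Subgroup G)
    [hB : B.Normal] {p q : ℕ} (hp : p.Prime) (hq : q.Prime) (hpq : p ≠ q)
    (hBp : ∀ b ∈ B, b ^ p = 1) (a b c : G) (hc : c = a * b * a⁻¹ * b⁻¹) (hcq : c ^ q = 1) :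
    ∀ x ∈ B, Commute c x := by
  obtain ⟨n, s, h0, h1, hn, hs⟩ := h
  have key : ∀ i : Fin (n + 1), ∀ x ∈ B, x ∈ s i → Commute c x := by
    intro i
    induction i using Fin.induction with
    | zero =>
      intro x _ hx
      rw [h0, mem_bot] at hx
      rw [hx]
      exact Commute.one_right c
    | succ i ih =>
      intro x hxB hx
      obtain ⟨hle, g, hg, hgen⟩ := hs i
      have hni := hn i.castSucc
      have hni' := hn i.succ
      have hfin : Finite (G ⧸ s i.castSucc) := inferInstance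
      let π : G →* G ⧸ s i.castSucc := QuotientGroup.mk' _
      -- commutators centralize the cyclic factor
      have hcyc : ∀ y ∈ s i.succ, π y ∈ zpowers (π g) := by
        intro y hy
        obtain ⟨k, hk⟩ := hgen y hy
        refine ⟨k, ?_⟩
        have h2 : π (y * (g ^ k)⁻¹) = 1 := (QuotientGroup.eq_one_iff _).2 hk
        rw [map_mul, map_inv, map_zpow, mul_inv_eq_one] at h2
        exact h2.symm
      have hcom : Commute (π c) (π g) := by
        rw [hc, map_mul, map_mul, map_mul, map_inv, map_inv]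
        apply commutator_comm
        intro u _
        obtain ⟨u, rfl⟩ := QuotientGroup.mk'_surjective _ u
        have h2 := hcyc (u * g * u⁻¹) (hni'.conj_mem g hg u)
        rw [map_mul, map_mul, map_inv] at h2
        exact h2
      have hcx : Commute (π c) (π x) := by
        obtain ⟨k, hk⟩ := hcyc x hx
        simp only at hk
        rw [← hk]
        exact hcom.zpow_right k
      -- hence the commutator is one step below
      obtain ⟨y, hy⟩ : ∃ y, y = c * x * c⁻¹ * x⁻¹ := ⟨_, rfl⟩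
      have hys : y ∈ s i.castSucc := by
        rw [← QuotientGroup.eq_one_iff]
        change π y = 1
        rw [hy, map_mul, map_mul, map_mul, map_inv, map_inv, hcx.eq, mul_inv_cancel_right,
          mul_inv_cancel]
      have hyB : y ∈ B := by
        rw [hy]
        exact B.mul_mem (hB.conj_mem x hxB c) (B.inv_mem hxB)
      have hcy : Commute c y := ih y hyB hys
      have hcx' : c * x * c⁻¹ = y * x := by rw [hy]; group
      have hpow : ∀ m : ℕ, c ^ m * x * (c ^ m)⁻¹ = y ^ m * x := by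
        intro m
        induction m with
        | zero => simp
        | succ m ihm =>
          calc c ^ (m + 1) * x * (c ^ (m + 1))⁻¹ = c * (c ^ m * x * (c ^ m)⁻¹) * c⁻¹ := by
                rw [pow_succ']; group
            _ = c * (y ^ m * x) * c⁻¹ := by rw [ihm]
            _ = (c * y ^ m) * x * c⁻¹ := by simp only [mul_assoc]
            _ = (y ^ m * c) * x * c⁻¹ := by rw [(hcy.pow_right m).eq]
            _ = y ^ m * (c * x * c⁻¹) := by simp only [mul_assoc]
            _ = y ^ m * (y * x) := by rw [hcx']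
            _ = y ^ (m + 1) * x := by rw [pow_succ, mul_assoc]
      have hyq : y ^ q = 1 := by
        have h2 := hpow q
        rw [hcq] at h2
        simp only [one_mul, inv_one, mul_one] at h2
        exact (right_eq_mul.1 h2)
      have hy1 : y = 1 :=
        eq_one_of_coprime_pow (hBp y hyB) hyq ((Nat.coprime_primes hp hq).2 hpq)
      rw [hy1, one_mul, mul_inv_eq_iff_eq_mul] at hcx'
      exact hcx'
  intro x hx
  apply key (Fin.last n) x hx
  rw [h1]
  exact mem_top x

/-- Lemma Z: the bad group. -/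
theorem Cl.bad {H : (G : Type) → [Group G] → Prop} (h : Cl H) {p q : ℕ} (hp : p.Prime)
    (hq : q.Prime) (hqp : q ∣ p - 1) {Γ V : Type} [Group Γ] [Finite Γ] [AddCommGroup V]
    [Finite V] (ρ : Act Γ V) (hV : ∀ v : V, p • v = 0) (hSD : H (SD ρ)) (a b c : Γ)
    (hab : a * b = c * b * a) (hac : Commute a c) (hbc : Commute b c) (hcq : c ^ q = 1)
    (hgen : closure {a, b} = ⊤) (v : V) (hva : ρ.a (a ^ q) v = v) (hvb : ρ.a (b ^ q) v = v)
    (hvc : ρ.a c v ≠ v) : False := by
  have hpq : p ≠ q := by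
    rintro rfl
    have h1 := Nat.le_of_dvd (by have := hp.two_le; omega) hqp
    have := hp.two_le
    omega
  -- `a ^ q` and `b ^ q` are central
  have hcen_of : ∀ z : Γ, Commute z a → Commute z b → ∀ g, Commute z g := by
    intro z hza hzb g
    have hg : g ∈ closure {a, b} := by rw [hgen]; exact mem_top g
    have hle : closure {a, b} ≤ centralizer {z} := by
      rw [closure_le]
      rintro t (rfl | rfl)
      · exact mem_centralizer_singleton_iff.2 hza.eq.symm
      · exact mem_centralizer_singleton_iff.2 hzb.eq.symm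
    exact (mem_centralizer_singleton_iff.1 (hle hg)).symm
  have haq : ∀ g, Commute (a ^ q) g := by
    apply hcen_of
    · exact Commute.pow_self a q
    · have h1 := central_comm_pow hab hac hbc q 1
      rw [mul_one, hcq, one_mul, pow_one] at h1
      exact h1
  have hbq : ∀ g, Commute (b ^ q) g := by
    apply hcen_of
    · have h1 := central_comm_pow hab hac hbc 1 q
      rw [one_mul, hcq, one_mul, pow_one] at h1
      exact h1.symm
    · exact Commute.pow_self b q
  have hcc : ∀ g, Commute c g := hcen_of c hac.symm hbc.symm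
  -- the invariant submodule
  let B : AddSubgroup V :=
    { carrier := {w | ρ.a (a ^ q) w = w ∧ ρ.a (b ^ q) w = w}
      zero_mem' := ⟨map_zero _, map_zero _⟩
      add_mem' := by
        rintro x y ⟨hx1, hx2⟩ ⟨hy1, hy2⟩
        exact ⟨by rw [map_add, hx1, hy1], by rw [map_add, hx2, hy2]⟩
      neg_mem' := by
        rintro x ⟨hx1, hx2⟩
        exact ⟨by rw [map_neg, hx1], by rw [map_neg, hx2]⟩ }
  have hBinv : ∀ g : Γ, ∀ w ∈ B, ρ.a g w ∈ B := by
    rintro g w ⟨h1, h2⟩
    refine ⟨?_, ?_⟩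
    · rw [← ρ.mul, (haq g).eq, ρ.mul, h1]
    · rw [← ρ.mul, (hbq g).eq, ρ.mul, h2]
  let R : Subgroup (SD ρ) :=
    { carrier := {y | y.v ∈ B}
      one_mem' := B.zero_mem
      mul_mem' := by
        intro x y hx hy
        exact B.add_mem hx (hBinv _ _ hy)
      inv_mem' := by
        intro x hx
        exact B.neg_mem (hBinv _ _ hx) }
  have hR : H R := h.her _ R hSD
  let πR : R →* Γ := (SD.proj ρ).comp R.subtype
  have hπR : ∀ y : R, πR y = (y : SD ρ).g := fun y => rfl
  -- the general construction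
  have hSSsub : ∀ D : Subgroup Γ, D.Normal → (∀ x ∈ D, ∀ y ∈ D, x * y = y * x) →
      (∀ x ∈ D, ∀ w ∈ B, ρ.a (x ^ q) w = w) → SS (D.comap πR) := by
    intro D hD hDab hDq
    let B' : Subgroup (D.comap πR) := (⊥ : Subgroup Γ).comap (πR.comp (D.comap πR).subtype)
    have hmem : ∀ x : D.comap πR, x ∈ B' ↔ ((x : R) : SD ρ).g = 1 := fun x => Iff.rfl
    refine SS.of_abelian_by hp _ (D.comap πR) B' le_rfl ?_ ?_ ?_ ?_
    · rintro ⟨⟨⟨x, gx⟩, hx1⟩, hx2⟩ hx3 ⟨⟨⟨y, gy⟩, hy1⟩, hy2⟩ hy3
      have e1 : gx = 1 := hx3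
      have e2 : gy = 1 := hy3
      subst e1 e2
      apply Subtype.ext
      apply Subtype.ext
      apply SD.ext
      · change x + ρ.a 1 y = y + ρ.a 1 x
        rw [ρ.one, ρ.one, add_comm]
      · rfl
    · rintro ⟨⟨⟨x, gx⟩, hx1⟩, hx2⟩ hx3
      have e1 : gx = 1 := hx3
      subst e1
      apply Subtype.ext
      apply Subtype.ext
      change (⟨x, 1⟩ : SD ρ) ^ p = 1
      rw [SD.pow_mk_one, hV]
      rfl
    · intro x y
      rw [hmem]
      change ((x : R) : SD ρ).g * ((y : R) : SD ρ).g * ((x : R) : SD ρ).g⁻¹ *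
        ((y : R) : SD ρ).g⁻¹ = 1
      have h1 : ((x : R) : SD ρ).g * ((y : R) : SD ρ).g =
        ((y : R) : SD ρ).g * ((x : R) : SD ρ).g := hDab _ x.2 _ y.2
      rw [h1]
      simp
    · rintro ⟨⟨g, hg1⟩, hg2⟩ ⟨⟨⟨x, gx⟩, hx1⟩, hx2⟩ hx3
      have e1 : gx = 1 := hx3
      subst e1
      apply Subtype.ext
      apply Subtype.ext
      change g ^ (p - 1) * ⟨x, 1⟩ * (g ^ (p - 1))⁻¹ = (⟨x, 1⟩ : SD ρ)
      rw [mul_inv_eq_iff_eq_mul]
      have hgpow : ∀ m : ℕ, (g ^ m).g = g.g ^ m := by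
        intro m
        exact map_pow (SD.proj ρ) g m
      have hact : ρ.a (g ^ (p - 1)).g x = x := by
        rw [hgpow]
        obtain ⟨m, hm⟩ := hqp
        rw [hm, pow_mul]
        have h1 : ∀ m : ℕ, ρ.a ((g.g ^ q) ^ m) x = x := by
          intro m
          induction m with
          | zero => rw [pow_zero, ρ.one]
          | succ m ih => rw [pow_succ, ρ.mul, hDq g.g hg2 x hx1, ih]
        exact h1 m
      apply SD.ext
      · rw [SD.mul_v, SD.mul_v, hact]
        change (g ^ (p - 1)).v + x = x + ρ.a 1 (g ^ (p - 1)).v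
        rw [ρ.one, add_comm]
      · rw [SD.mul_g, SD.mul_g]
        change (g ^ (p - 1)).g * 1 = 1 * (g ^ (p - 1)).g
        simp
  -- the two abelian normal subgroups
  have hconjmem : ∀ (D : Subgroup Γ), (∀ x ∈ D, a * x * a⁻¹ ∈ D) → (∀ x ∈ D, b * x * b⁻¹ ∈ D) →
      D.Normal := by
    intro D h1 h2
    have hle : closure {a, b} ≤ normalizer (D : Set Γ) := by
      rw [closure_le]
      rintro t (rfl | rfl)
      · exact mem_normalizer_fintype h1
      · exact mem_normalizer_fintype h2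
    rw [← normalizer_eq_top_iff, eq_top_iff, ← hgen]
    exact hle
  have hmain : ∀ (t u : Γ), (t = a ∧ u = b ∨ t = b ∧ u = a) →
      ∃ D : Subgroup Γ, t ∈ D ∧ D.Normal ∧ (∀ x ∈ D, ∀ y ∈ D, x * y = y * x) ∧
      (∀ x ∈ D, ∀ w ∈ B, ρ.a (x ^ q) w = w) := by
    intro t u htu
    have htq : ∀ w ∈ B, ρ.a (t ^ q) w = w := by
      rintro w ⟨h1, h2⟩
      rcases htu with ⟨rfl, rfl⟩ | ⟨rfl, rfl⟩
      · exact h1
      · exact h2
    have hconj : ∃ e : Γ, (e = c ∨ e = c⁻¹) ∧ u * t * u⁻¹ = e * t := by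
      rcases htu with ⟨rfl, rfl⟩ | ⟨rfl, rfl⟩
      · refine ⟨c⁻¹, Or.inr rfl, ?_⟩
        rw [mul_inv_eq_iff_eq_mul, mul_assoc, hab, ← mul_assoc, ← mul_assoc]
        simp
      · refine ⟨c, Or.inl rfl, ?_⟩
        rw [mul_inv_eq_iff_eq_mul, hab]
    let D : Subgroup Γ := zpowers t ⊔ zpowers c
    have hcn : (zpowers c).Normal := by
      constructor
      rintro _ ⟨k, rfl⟩ g
      simp only
      rw [← ((hcc g).zpow_left k).eq, mul_inv_cancel_right]
      exact ⟨k, rfl⟩
    have hDmem : ∀ x ∈ D, ∃ i j : ℤ, x = t ^ i * c ^ j := by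
      intro x hx
      obtain ⟨_, ⟨i, rfl⟩, _, ⟨j, rfl⟩, rfl⟩ := (Subgroup.mem_sup_of_normal_right).1 hx
      exact ⟨i, j, rfl⟩
    have htD : ∀ i j : ℤ, t ^ i * c ^ j ∈ D := fun i j =>
      D.mul_mem (mem_sup_left ⟨i, rfl⟩) (mem_sup_right ⟨j, rfl⟩)
    have hDab : ∀ x ∈ D, ∀ y ∈ D, Commute x y := by
      intro x hx y hy
      obtain ⟨i, j, rfl⟩ := hDmem x hx
      obtain ⟨k, l, rfl⟩ := hDmem y hy
      have h1 : ∀ (m : ℤ) (g : Γ), Commute (c ^ m) g := fun m g => (hcc g).zpow_left m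
      exact (((Commute.refl t).zpow_zpow i k).mul_right (h1 l _).symm).mul_left
        ((h1 j _).mul_right (h1 j _))
    refine ⟨D, mem_sup_left (mem_zpowers t), ?_, fun x hx y hy => (hDab x hx y hy).eq, ?_⟩
    · have hu : ∀ x ∈ D, u * x * u⁻¹ ∈ D := by
        intro x hx
        obtain ⟨i, j, rfl⟩ := hDmem x hx
        obtain ⟨e, he, hute⟩ := hconj
        have heD : e ∈ D := by
          rcases he with he | he
          · rw [he]
            exact mem_sup_right (mem_zpowers c)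
          · rw [he]
            exact D.inv_mem (mem_sup_right (mem_zpowers c))
        have h1 : u * (t ^ i * c ^ j) * u⁻¹ = (e * t) ^ i * c ^ j := by
          rw [← hute, conj_zpow]
          have h2 : Commute (c ^ j) u := (hcc u).zpow_left j
          calc u * (t ^ i * c ^ j) * u⁻¹ = u * t ^ i * (c ^ j * u⁻¹) := by
                simp only [mul_assoc]
            _ = u * t ^ i * (u⁻¹ * c ^ j) := by rw [h2.inv_right.eq]
            _ = u * t ^ i * u⁻¹ * c ^ j := by simp only [mul_assoc]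
        rw [h1]
        exact D.mul_mem (D.zpow_mem (D.mul_mem heD (mem_sup_left (mem_zpowers t))) i)
          (mem_sup_right ⟨j, rfl⟩)
      have ht : ∀ x ∈ D, t * x * t⁻¹ ∈ D := by
        intro x hx
        exact D.mul_mem (D.mul_mem (mem_sup_left (mem_zpowers t)) hx)
          (D.inv_mem (mem_sup_left (mem_zpowers t)))
      rcases htu with ⟨rfl, rfl⟩ | ⟨rfl, rfl⟩
      · exact hconjmem D ht hu
      · exact hconjmem D hu ht
    · intro x hx w hw
      obtain ⟨i, j, rfl⟩ := hDmem x hx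
      have h1 : (t ^ i * c ^ j) ^ q = (t ^ q) ^ i := by
        have h2 : Commute (t ^ i) (c ^ j) := ((hcc (t ^ i)).zpow_left j).symm
        rw [h2.mul_pow, ← zpow_natCast (c ^ j), ← zpow_mul, mul_comm j, zpow_mul, zpow_natCast,
          hcq, one_zpow, mul_one, ← zpow_natCast, ← zpow_mul, mul_comm i, zpow_mul,
          zpow_natCast]
      rw [h1]
      have h3 : ∀ m : ℕ, ρ.a ((t ^ q) ^ m) w = w := by
        intro m
        induction m with
        | zero => rw [pow_zero, ρ.one]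
        | succ m ih => rw [pow_succ, ρ.mul, htq w hw, ih]
      rcases Int.eq_nat_or_neg i with ⟨m, rfl | rfl⟩
      · rw [zpow_natCast]
        exact h3 m
      · rw [zpow_neg, zpow_natCast]
        conv_lhs => rw [← h3 m]
        rw [← ρ.mul, inv_mul_cancel, ρ.one]
  obtain ⟨DA, haD, hDA, hDAab, hDAq⟩ := hmain a b (Or.inl ⟨rfl, rfl⟩)
  obtain ⟨DB, hbD, hDB, hDBab, hDBq⟩ := hmain b a (Or.inr ⟨rfl, rfl⟩)
  have hSA := hSSsub DA hDA hDAab hDAq
  have hSB := hSSsub DB hDB hDBab hDBq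
  have hSS := h.rad R hR (DA.comap πR) (DB.comap πR) inferInstance inferInstance hSA hSB
  -- conclude with Lemma E
  set J : Subgroup R := DA.comap πR ⊔ DB.comap πR with hJ
  let ia : R := ⟨⟨0, a⟩, B.zero_mem⟩
  let ib : R := ⟨⟨0, b⟩, B.zero_mem⟩
  let ic : R := ⟨⟨0, c⟩, B.zero_mem⟩
  have hia : ia ∈ J := mem_sup_left haD
  have hib : ib ∈ J := mem_sup_right hbD
  have hic : ic = ia * ib * ia⁻¹ * ib⁻¹ := by
    apply Subtype.ext
    apply SD.ext
    · change (0 : V) = 0 + ρ.a a 0 + ρ.a (a * b) (-(ρ.a a⁻¹ 0)) +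
        ρ.a (a * b * a⁻¹) (-(ρ.a b⁻¹ 0))
      simp
    · change c = a * b * a⁻¹ * b⁻¹
      rw [hab]
      simp
  have hicJ : ic ∈ J := by
    rw [hic]
    exact J.mul_mem (J.mul_mem (J.mul_mem hia hib) (J.inv_mem hia)) (J.inv_mem hib)
  have hicq : ic ^ q = 1 := by
    apply Subtype.ext
    change (⟨0, c⟩ : SD ρ) ^ q = 1
    have h1 : ∀ m : ℕ, (⟨0, c⟩ : SD ρ) ^ m = ⟨0, c ^ m⟩ := by
      intro m
      induction m with
      | zero => simp; rfl
      | succ m ih =>
        rw [pow_succ, ih]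
        apply SD.ext
        · simp
        · simp [pow_succ]
    rw [h1, hcq]
    rfl
  let BJ : Subgroup J := (⊥ : Subgroup Γ).comap (πR.comp J.subtype)
  have hx : (⟨v, 1⟩ : SD ρ) ∈ R := ⟨hva, hvb⟩
  have hxJ : (⟨⟨v, 1⟩, hx⟩ : R) ∈ J := mem_sup_left DA.one_mem
  have hfinal := hSS.commute_of BJ hp hq hpq ?_ ⟨ia, hia⟩ ⟨ib, hib⟩ ⟨ic, hicJ⟩
    (Subtype.ext hic) (Subtype.ext hicq) ⟨⟨⟨v, 1⟩, hx⟩, hxJ⟩ rfl
  · apply hvc
    have h1 := congrArg (fun y : J => ((y : R) : SD ρ).v) hfinal.eq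
    change 0 + ρ.a c v = v + ρ.a 1 0 at h1
    rw [zero_add, map_zero, add_zero] at h1
    exact h1
  · rintro ⟨⟨⟨x, gx⟩, hx1⟩, hx2⟩ hx3
    have e1 : gx = 1 := hx3
    subst e1
    apply Subtype.ext
    apply Subtype.ext
    change (⟨x, 1⟩ : SD ρ) ^ p = 1
    rw [SD.pow_mk_one, hV]
    rfl

end Pool.Agent.Lib.MP_b21f3c_al
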