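import Mathlib

set_option autoImplicit false

namespace Pool.Agent.Lib.MP_b21f3c_al

open Subgroup

/-- Linear action of a group on an abelian group. -/
structure Act (G V : Type) [AddCommGroup V] [Group G] where
  a : G → V →+ V
  one : ∀ v, a 1 v = v
  mul : ∀ g h v, a (g * h) v = a g (a h v)

/-- Semidirect product of an abelian group (written additively) with a group. -/
@[ext] structure SD {G V : Type} [AddCommGroup V] [Group G] (ρ : Act G V) where
  v : V
  g : G

namespace SD

variable {V G : Type} [AddCommGroup V] [Group G] (ρ : Act G V)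

instance : Group (SD ρ) where
  mul a b := ⟨a.v + ρ.a a.g b.v, a.g * b.g⟩
  one := ⟨0, 1⟩
  inv a := ⟨- ρ.a a.g⁻¹ a.v, a.g⁻¹⟩
  mul_assoc a b c := by
    apply SD.ext
    · change (a.v + ρ.a a.g b.v) + ρ.a (a.g * b.g) c.v = a.v + ρ.a a.g (b.v + ρ.a b.g c.v)
      rw [ρ.mul, map_add, add_assoc]
    · exact mul_assoc _ _ _
  one_mul a := by
    apply SD.ext
    · change 0 + ρ.a 1 a.v = a.v
      rw [ρ.one, zero_add]
    · exact one_mul _
  mul_one a := by
    apply SD.ext
    · change a.v + ρ.a a.g 0 = a.v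
      rw [map_zero, add_zero]
    · exact mul_one _
  inv_mul_cancel a := by
    apply SD.ext
    · change - ρ.a a.g⁻¹ a.v + ρ.a a.g⁻¹ a.v = 0
      exact neg_add_cancel _
    · exact inv_mul_cancel _

variable {ρ}

@[simp] theorem mul_v (a b : SD ρ) : (a * b).v = a.v + ρ.a a.g b.v := rfl
@[simp] theorem mul_g (a b : SD ρ) : (a * b).g = a.g * b.g := rfl
@[simp] theorem one_v : (1 : SD ρ).v = 0 := rfl
@[simp] theorem one_g : (1 : SD ρ).g = 1 := rfl
@[simp] theorem inv_v (a : SD ρ) : (a⁻¹).v = - ρ.a a.g⁻¹ a.v := rfl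
@[simp] theorem inv_g (a : SD ρ) : (a⁻¹).g = a.g⁻¹ := rfl

variable (ρ)

/-- projection -/
def proj : SD ρ →* G where
  toFun a := a.g
  map_one' := rfl
  map_mul' _ _ := rfl

@[simp] theorem proj_apply (a : SD ρ) : proj ρ a = a.g := rfl

instance [Finite V] [Finite G] : Finite (SD ρ) :=
  Finite.of_injective (fun a : SD ρ => (a.v, a.g)) (by
    intro a b h
    simp only [Prod.mk.injEq] at h
    exact SD.ext h.1 h.2)

variable {ρ}

theorem pow_mk_one (v : V) (n : ℕ) : (⟨v, 1⟩ : SD ρ) ^ n = ⟨n • v, 1⟩ := by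
  induction n with
  | zero =>
    apply SD.ext <;> simp
  | succ n ih =>
    rw [pow_succ, ih]
    apply SD.ext
    · simp [add_smul, ρ.one]
    · simp

end SD

/-- A subgroup contained in all maximal subgroups is contained in the Frattini subgroup. -/
theorem le_frattini {G : Type} [Group G] (K : Subgroup G)
    (h : ∀ W : Subgroup G, IsCoatom W → K ≤ W) : K ≤ frattini G := by
  simp only [frattini, Order.radical, le_iInf_iff]
  intro W hW
  exact h W hW

/-- Gaschuetz: minimal supplements of an abelian normal subgroup. -/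
theorem exists_min_supplement {S G : Type} [Group S] [Finite S] [Group G] (π : S →* G)
    (E : Subgroup S) (hE : E.map π = ⊤) :
    ∃ T : Subgroup S, T ≤ E ∧ T.map π = ⊤ ∧ (π.comp T.subtype).ker ≤ frattini T := by
  obtain ⟨T, ⟨h1, h2⟩, hmin⟩ := wellFounded_lt.has_min
    {T : Subgroup S | T ≤ E ∧ T.map π = ⊤} ⟨E, le_rfl, hE⟩
  refine ⟨T, h1, h2, ?_⟩
  apply le_frattini
  intro W hW
  by_contra hnle
  have hsup : W ⊔ (π.comp T.subtype).ker = ⊤ := by
    apply hW.2
    apply lt_of_le_of_ne le_sup_left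
    intro h
    apply hnle
    rw [h]
    exact le_sup_right
  have h3 : (W.map T.subtype).map π = ⊤ := by
    have h4 : (⊤ : Subgroup T).map (π.comp T.subtype) = ⊤ := by
      rw [← Subgroup.map_map]
      have : (⊤ : Subgroup T).map T.subtype = T := by
        rw [← MonoidHom.range_eq_map, Subgroup.range_subtype]
      rw [this, h2]
    rw [← hsup, Subgroup.map_sup, (Subgroup.map_eq_bot_iff _).2 le_rfl, sup_bot_eq] at h4
    rw [Subgroup.map_map]
    exact h4
  have h5 : W.map T.subtype ≤ T := by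
    rintro _ ⟨x, hx, rfl⟩
    exact x.2
  apply hmin (W.map T.subtype) ⟨h5.trans h1, h3⟩
  apply lt_of_le_of_ne h5
  intro h6
  apply hW.1
  rw [eq_top_iff]
  intro x _
  have h7 : (x : S) ∈ W.map T.subtype := by
    rw [h6]
    exact x.2
  obtain ⟨y, hy, hyx⟩ := h7
  have : y = x := Subtype.ext hyx
  rwa [← this]

end Pool.Agent.Lib.MP_b21f3c_al
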