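import Pool.Agent.Lib.MP_b21f3c_al.SS
import Pool.Agent.Lib.MP_b21f3c_al.SD

set_option autoImplicit false

namespace Pool.Agent.Lib.MP_b21f3c_al

open Subgroup
open scoped commutatorElement

/-- The closure properties of a member of the set `M` of the problem. -/
structure Cl (H : (G : Type) → [Group G] → Prop) : Prop where
  iso : ∀ (G G' : Type) [Group G] [Group G'], Finite G → Nonempty (G ≃* G') → H G → H G'
  quot : ∀ (G : Type) [Group G] [Finite G] (N : Subgroup G) [N.Normal], H G → H (G ⧸ N)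
  subd : ∀ (G : Type) [Group G] [Finite G] (N₁ N₂ : Subgroup G) [N₁.Normal] [N₂.Normal],
    N₁ ⊓ N₂ = ⊥ → H (G ⧸ N₁) → H (G ⧸ N₂) → H G
  her : ∀ (G : Type) [Group G] [Finite G] (K : Subgroup G), H G → H ↥K
  sat : ∀ (G : Type) [Group G] [Finite G], H (G ⧸ frattini G) → H G
  ss : ∀ (G : Type) [Group G] [Finite G], SS G → H G
  rad : ∀ (G : Type) [Group G] [Finite G], H G → ∀ A B : Subgroup G, A.Normal → B.Normal →
    SS ↥A → SS ↥B → SS ↥(A ⊔ B)

namespace Cl

variable {H : (G : Type) → [Group G] → Prop} (h : Cl H)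
include h

theorem of_surj {G G' : Type} [Group G] [Group G'] [Finite G] (f : G →* G')
    (hf : Function.Surjective f) (hG : H G) : H G' :=
  h.iso (G ⧸ f.ker) G' inferInstance ⟨QuotientGroup.quotientKerEquivOfSurjective f hf⟩
    (h.quot G f.ker hG)

theorem of_inj {G G' : Type} [Group G] [Group G'] [Finite G] (f : G' →* G)
    (hf : Function.Injective f) (hG : H G) : H G' := by
  have h1 : H f.range := h.her G f.range hG
  exact h.iso f.range G' inferInstance ⟨(MonoidHom.ofInjective hf).symm⟩ h1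

theorem prod {G G' : Type} [Group G] [Group G'] [Finite G] [Finite G'] (hG : H G)
    (hG' : H G') : H (G × G') := by
  apply h.subd (G × G') (MonoidHom.fst G G').ker (MonoidHom.snd G G').ker
  · rw [eq_bot_iff]
    rintro ⟨x, y⟩ ⟨h1, h2⟩
    have h1' : x = 1 := h1
    have h2' : y = 1 := h2
    rw [mem_bot, h1', h2']
    rfl
  · exact h.iso G _ inferInstance
      ⟨(QuotientGroup.quotientKerEquivOfSurjective (MonoidHom.fst G G')
        Prod.fst_surjective).symm⟩ hG
  · exact h.iso G' _ inferInstance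
      ⟨(QuotientGroup.quotientKerEquivOfSurjective (MonoidHom.snd G G')
        Prod.snd_surjective).symm⟩ hG'

theorem of_frattini {G G' : Type} [Group G] [Group G'] [Finite G] (f : G →* G')
    (hf : Function.Surjective f) (hker : f.ker ≤ frattini G) (hG : H G') : H G := by
  have : Finite G' := Finite.of_surjective f hf
  apply h.sat
  -- `G ⧸ frattini G` is a quotient of `G'`
  let φ : G' →* G ⧸ frattini G :=
    (QuotientGroup.map f.ker (frattini G) (MonoidHom.id G) hker).comp
      (QuotientGroup.quotientKerEquivOfSurjective f hf).symm.toMonoidHom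
  have hφ : Function.Surjective φ := by
    have h1 : Function.Surjective
        (QuotientGroup.map f.ker (frattini G) (MonoidHom.id G) hker) := by
      intro x
      obtain ⟨y, rfl⟩ := QuotientGroup.mk'_surjective _ x
      exact ⟨(y : G ⧸ f.ker), rfl⟩
    exact h1.comp (QuotientGroup.quotientKerEquivOfSurjective f hf).symm.surjective
  exact h.of_surj φ hφ hG

end Cl

/-- In a finite nilpotent group every maximal subgroup contains all commutators. -/
theorem comm_mem_coatom {G : Type} [Group G] [Finite G] (hG : Group.IsNilpotent G)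
    (D : Subgroup G) (hD : IsCoatom D) (x y : G) : x * y * x⁻¹ * y⁻¹ ∈ D := by
  have hn : D.Normal :=
    (Group.normalizerCondition_of_isNilpotent (G := G)).normal_of_coatom D hD
  obtain ⟨t, ht⟩ : ∃ t, t ∉ D := by
    by_contra hcon
    push Not at hcon
    exact hD.1 (eq_top_iff.2 fun x _ => hcon x)
  have htop : D ⊔ zpowers t = ⊤ := by
    apply hD.2
    apply lt_of_le_of_ne le_sup_left
    intro h
    apply ht
    rw [h]
    exact mem_sup_right (mem_zpowers t)
  have key : ∀ g : G, ∃ k : ℤ, (g : G ⧸ D) = (t : G ⧸ D) ^ k := by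
    intro g
    have h1 : g ∈ D ⊔ zpowers t := by rw [htop]; exact mem_top g
    obtain ⟨d, hd, _, ⟨k, rfl⟩, rfl⟩ := (Subgroup.mem_sup_of_normal_left).1 h1
    refine ⟨k, ?_⟩
    simp only
    rw [QuotientGroup.mk_mul, (QuotientGroup.eq_one_iff d).2 hd, one_mul, QuotientGroup.mk_zpow]
  obtain ⟨k, hk⟩ := key x
  obtain ⟨l, hl⟩ := key y
  rw [← QuotientGroup.eq_one_iff]
  rw [QuotientGroup.mk_mul, QuotientGroup.mk_mul, QuotientGroup.mk_mul, QuotientGroup.mk_inv,
    QuotientGroup.mk_inv, hk, hl]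
  rw [mul_inv_eq_one, mul_inv_eq_iff_eq_mul]
  exact ((Commute.refl _).zpow_zpow k l)

/-- The derived subgroup of a nilpotent normal subgroup lies in the Frattini subgroup. -/
theorem commutator_le_frattini {Y : Type} [Group Y] [Finite Y] (N : Subgroup Y) [hN : N.Normal]
    (hnil : Group.IsNilpotent N) : ⁅N, N⁆ ≤ frattini Y := by
  apply le_frattini
  intro W hW
  by_contra hnle
  have hsup : W ⊔ ⁅N, N⁆ = ⊤ := by
    apply hW.2
    apply lt_of_le_of_ne le_sup_left
    intro h
    apply hnle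
    rw [h]
    exact le_sup_right
  have hNle : ⁅N, N⁆ ≤ N := Subgroup.commutator_le_left N N
  have hDne : W.subgroupOf N ≠ ⊤ := by
    intro h
    rw [subgroupOf_eq_top] at h
    exact hnle (hNle.trans h)
  obtain ⟨D', hD', hle⟩ := (eq_top_or_exists_le_coatom (W.subgroupOf N)).resolve_left hDne
  apply hD'.1
  rw [eq_top_iff]
  rintro ⟨n, hn⟩ -
  have h1 : n ∈ W ⊔ ⁅N, N⁆ := by rw [hsup]; exact mem_top n
  obtain ⟨w, hw, c, hc, rfl⟩ := (Subgroup.mem_sup_of_normal_right).1 h1
  have hcN : c ∈ N := hNle hc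
  have hwN : w ∈ N := by
    have := N.mul_mem hn (N.inv_mem hcN)
    simpa using this
  have h2 : (⟨c, hcN⟩ : N) ∈ D' := by
    have h3 : ⁅N, N⁆ ≤ D'.map N.subtype := by
      rw [Subgroup.commutator_le]
      intro x hx y hy
      refine ⟨⟨x, hx⟩ * ⟨y, hy⟩ * ⟨x, hx⟩⁻¹ * ⟨y, hy⟩⁻¹, comm_mem_coatom hnil D' hD' _ _, ?_⟩
      rw [commutatorElement_def]
      rfl
    obtain ⟨⟨c', hc'⟩, hcD, hcc⟩ := h3 hc
    have : (⟨c, hcN⟩ : N) = ⟨c', hc'⟩ := Subtype.ext hcc.symm
    rw [this]
    exact hcD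
  have h4 : (⟨w, hwN⟩ : N) ∈ D' := hle (by
    rw [mem_subgroupOf]
    exact hw)
  exact D'.mul_mem h4 h2

/-- The permutation action on functions. -/
def actFun (p : ℕ) {Δ Ω : Type} [Group Δ] (φ : Δ →* Equiv.Perm Ω) : Act Δ (Ω → ZMod p) where
  a g :=
    { toFun := fun f τ => f ((φ g)⁻¹ τ)
      map_zero' := rfl
      map_add' := fun _ _ => rfl }
  one f := by
    funext τ
    simp
  mul g h f := by
    funext τ
    simp

@[simp] theorem actFun_apply (p : ℕ) {Δ Ω : Type} [Group Δ] (φ : Δ →* Equiv.Perm Ω) (g : Δ)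
    (f : Ω → ZMod p) (τ : Ω) : (actFun p φ).a g f τ = f ((φ g)⁻¹ τ) := rfl

/-- Lemma T: permutational wreath products with a transitive normal `p`-subgroup. -/
theorem Cl.wreath {H : (G : Type) → [Group G] → Prop} (h : Cl H) {p : ℕ} (hp : p.Prime)
    {Δ Ω : Type} [Group Δ] [Finite Δ] [Finite Ω] [Nonempty Ω] (φ : Δ →* Equiv.Perm Ω)
    (P : Subgroup Δ) [hPn : P.Normal] (hP : IsPGroup p P)
    (htrans : ∀ τ τ' : Ω, ∃ x ∈ P, φ x τ = τ') (hΔ : H Δ) : H (SD (actFun p φ)) := by
  classical
  have hfact : Fact p.Prime := ⟨hp⟩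
  have : Fintype Ω := Fintype.ofFinite _
  -- the quotient map
  let F : SD (actFun p φ) →* Multiplicative (ZMod p) × Δ :=
    { toFun := fun y => (Multiplicative.ofAdd (∑ τ, y.v τ), y.g)
      map_one' := by simp
      map_mul' := by
        intro x y
        apply Prod.ext
        · change Multiplicative.ofAdd (∑ τ, (x.v τ + y.v ((φ x.g)⁻¹ τ))) =
            Multiplicative.ofAdd (∑ τ, x.v τ) * Multiplicative.ofAdd (∑ τ, y.v τ)
          rw [Finset.sum_add_distrib, ofAdd_add, Equiv.sum_comp (φ x.g)⁻¹ y.v]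
        · rfl }
  have hF : Function.Surjective F := by
    rintro ⟨s, d⟩
    obtain ⟨τ₀⟩ := (inferInstance : Nonempty Ω)
    refine ⟨⟨Pi.single τ₀ (Multiplicative.toAdd s), d⟩, ?_⟩
    apply Prod.ext
    · change Multiplicative.ofAdd (∑ τ, (Pi.single τ₀ (Multiplicative.toAdd s) : Ω → ZMod p) τ)
        = s
      rw [Finset.sum_pi_single']
      simp
    · rfl
  have hC : H (Multiplicative (ZMod p)) := by
    apply h.ss
    apply SS.of_cyclic_normal (⊤ : Subgroup (Multiplicative (ZMod p)))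
    · obtain ⟨g, hg⟩ := IsCyclic.exists_generator (α := Multiplicative (ZMod p))
      refine ⟨g, mem_top g, fun x _ => ?_⟩
      obtain ⟨k, hk⟩ := hg x
      refine ⟨k, ?_⟩
      simp only at hk
      rw [hk, mul_inv_cancel]
      exact one_mem _
    · apply SS.of_subsingleton
      exact QuotientGroup.subsingleton_quotient_top
  apply h.of_frattini F hF _ (h.prod hC hΔ)
  -- the kernel lies in the derived subgroup of a normal `p`-subgroup
  let N : Subgroup (SD (actFun p φ)) := P.comap (SD.proj (actFun p φ))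
  have hNp : IsPGroup p N := by
    apply hP.comap_of_ker_isPGroup
    rintro ⟨⟨f, g⟩, hg⟩
    have hg' : g = 1 := hg
    subst hg'
    refine ⟨1, Subtype.ext ?_⟩
    change (⟨f, 1⟩ : SD (actFun p φ)) ^ p ^ 1 = 1
    rw [pow_one, SD.pow_mk_one]
    apply SD.ext
    · funext x
      simp
    · rfl
  have hnil : Group.IsNilpotent N := hNp.isNilpotent
  refine le_trans ?_ (commutator_le_frattini N hnil)
  let A' : AddSubgroup (Ω → ZMod p) :=
    { carrier := {w | (⟨w, 1⟩ : SD (actFun p φ)) ∈ ⁅N, N⁆}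
      zero_mem' := (⁅N, N⁆).one_mem
      add_mem' := by
        intro a b ha hb
        have h1 := (⁅N, N⁆).mul_mem ha hb
        have h2 : (⟨a, 1⟩ * ⟨b, 1⟩ : SD (actFun p φ)) = ⟨a + b, 1⟩ := by
          apply SD.ext
          · change a + (actFun p φ).a 1 b = a + b
            rw [(actFun p φ).one]
          · exact one_mul 1
        rw [h2] at h1
        exact h1
      neg_mem' := by
        intro a ha
        have h1 := (⁅N, N⁆).inv_mem ha
        have h2 : (⟨a, 1⟩⁻¹ : SD (actFun p φ)) = ⟨-a, 1⟩ := by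
          apply SD.ext
          · change -(actFun p φ).a 1⁻¹ a = -a
            rw [inv_one, (actFun p φ).one]
          · exact inv_one
        rw [h2] at h1
        exact h1 }
  have hbasic : ∀ τ τ' : Ω, (Pi.single τ' (1 : ZMod p) - Pi.single τ (1 : ZMod p) :
      Ω → ZMod p) ∈ A' := by
    intro τ τ'
    obtain ⟨x, hx, hxτ⟩ := htrans τ τ'
    have h1 : (⟨0, x⟩ : SD (actFun p φ)) ∈ N := hx
    have h2 : (⟨Pi.single τ 1, 1⟩ : SD (actFun p φ)) ∈ N := P.one_mem
    have h3 := Subgroup.commutator_mem_commutator h1 h2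
    have h4 : ⁅(⟨0, x⟩ : SD (actFun p φ)), (⟨Pi.single τ 1, 1⟩ : SD (actFun p φ))⁆ =
        (⟨Pi.single τ' (1 : ZMod p) - Pi.single τ (1 : ZMod p), 1⟩ : SD (actFun p φ)) := by
      rw [commutatorElement_def]
      apply SD.ext
      · funext ρ
        have h5 : (φ x)⁻¹ ρ = τ ↔ ρ = τ' := by
          rw [Equiv.Perm.inv_eq_iff_eq, hxτ]
        simp only [SD.mul_v, SD.mul_g, SD.inv_v, SD.inv_g, map_zero, neg_zero, mul_one,
          mul_inv_cancel, inv_one, (actFun p φ).one, map_neg, zero_add, add_zero, Pi.add_apply,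
          Pi.neg_apply, actFun_apply, Pi.sub_apply, Pi.single_apply, h5]
        ring
      · simp
    rw [h4] at h3
    exact h3
  rintro ⟨f, g⟩ hy
  have hy' : F ⟨f, g⟩ = 1 := hy
  have hg : g = 1 := congrArg Prod.snd hy'
  have hsum : ∑ τ, f τ = 0 := by
    have := congrArg Prod.fst hy'
    exact this
  subst hg
  obtain ⟨τ₀⟩ := (inferInstance : Nonempty Ω)
  have hf : f = ∑ τ, (f τ).val • (Pi.single τ (1 : ZMod p) - Pi.single τ₀ (1 : ZMod p) :
      Ω → ZMod p) := by
    funext ρ
    rw [Finset.sum_apply]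
    simp only [Pi.smul_apply, Pi.sub_apply, nsmul_eq_mul, ZMod.natCast_zmod_val, mul_sub,
      Finset.sum_sub_distrib]
    rw [← Finset.sum_mul, hsum, zero_mul, sub_zero]
    simp [Pi.single_apply]
  have hfA : f ∈ A' := by
    rw [hf]
    exact A'.sum_mem fun τ _ => A'.nsmul_mem (hbasic τ₀ τ) _
  exact hfA

end Pool.Agent.Lib.MP_b21f3c_al
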