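import Pool.Agent.Lib.MP_b21f3c_al.SS

set_option autoImplicit false

namespace Pool.Agent.Lib.MP_b21f3c_al

open Subgroup Polynomial

/-- linear algebra: an endomorphism of exponent `p-1` of a nonzero `ZMod p`-space has an
eigenvector -/
theorem exists_eigenvector {p : ℕ} [hp : Fact p.Prime] {V : Type} [AddCommGroup V]
    [Module (ZMod p) V] [Nontrivial V] [Finite V] (T : Module.End (ZMod p) V)
    (hT : T ^ (p - 1) = 1) :
    ∃ μ : ZMod p, ∃ v : V, v ≠ 0 ∧ T v = μ • v := by
  have hpos : 0 < p := hp.out.pos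
  have hTp : T ^ p = T := by
    have : T ^ p = T ^ (p - 1) * T := by
      rw [← pow_succ]
      congr 1
      omega
    rw [this, hT, one_mul]
  have hdvd : minpoly (ZMod p) T ∣ X ^ p - X := by
    apply minpoly.dvd
    simp [hTp]
  have hint : IsIntegral (ZMod p) T := by
    refine ⟨X ^ p - X, ?_, ?_⟩
    · apply Polynomial.monic_X_pow_sub
      rw [degree_X]
      exact_mod_cast hp.out.one_lt
    · simp [hTp]
  have hsplit : (X ^ p - X : (ZMod p)[X]).Splits := by
    have := FiniteField.splits_X_pow_card_sub_X (p := p) (K := ZMod p)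
    simpa [ZMod.card] using this
  have hne : (X ^ p - X : (ZMod p)[X]) ≠ 0 :=
    FiniteField.X_pow_card_sub_X_ne_zero _ hp.out.one_lt
  have hms : (minpoly (ZMod p) T).Splits := hsplit.of_dvd hne hdvd
  have hdeg : (minpoly (ZMod p) T).degree ≠ 0 := (minpoly.degree_pos hint).ne'
  obtain ⟨μ, hμ⟩ := hms.exists_eval_eq_zero hdeg
  have hev : T.HasEigenvalue μ := by
    have : Module.Finite (ZMod p) V := Module.Finite.of_finite
    apply Module.End.hasEigenvalue_of_isRoot
    exact hμ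
  obtain ⟨v, hv⟩ := hev.exists_hasEigenvector
  exact ⟨μ, v, hv.2, hv.apply_eq_smul⟩

theorem exists_nsmul_eigen {p : ℕ} [hp : Fact p.Prime] {V : Type} [AddCommGroup V] [Finite V]
    [Nontrivial V] (hpow : ∀ x : V, p • x = 0) (φ : V →+ V) (hφ : ∀ x, φ^[p - 1] x = x) :
    ∃ l : ℕ, ∃ x : V, x ≠ 0 ∧ φ x = l • x := by
  let _ : Module (ZMod p) V := AddCommGroup.zmodModule (n := p) hpow
  let T : Module.End (ZMod p) V := φ.toZModLinearMap p
  have hTv : ∀ v : V, T v = φ v := fun v => rfl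
  have hT : T ^ (p - 1) = 1 := by
    apply LinearMap.ext
    intro v
    rw [Module.End.pow_apply]
    exact hφ v
  obtain ⟨μ, v, hv0, hv⟩ := exists_eigenvector T hT
  refine ⟨μ.val, v, hv0, ?_⟩
  rw [hTv] at hv
  have h4 : (μ • v : V) = (μ.val : ℕ) • v := by
    conv_lhs => rw [← ZMod.natCast_zmod_val μ]
    exact Nat.cast_smul_eq_nsmul (ZMod p) μ.val v
  rw [h4] at hv
  exact hv

theorem exists_pow_eigen {p : ℕ} [hp : Fact p.Prime] {N : Type} [CommGroup N] [Finite N]
    [Nontrivial N] (hpow : ∀ x : N, x ^ p = 1) (φ : MulAut N) (hφ : φ ^ (p - 1) = 1) :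
    ∃ l : ℕ, ∃ x : N, x ≠ 1 ∧ φ x = x ^ l := by
  obtain ⟨l, x, hx, hlx⟩ := exists_nsmul_eigen (V := Additive N) (p := p) hpow
    (MonoidHom.toAdditive φ.toMonoidHom) (by
      intro x
      have h1 : ∀ k : ℕ, (MonoidHom.toAdditive φ.toMonoidHom)^[k] x =
          Additive.ofMul ((φ ^ k) (Additive.toMul x)) := by
        intro k
        induction k with
        | zero => rfl
        | succ k ih =>
          rw [Function.iterate_succ_apply', ih, pow_succ', MulAut.mul_apply]
          rfl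
      rw [h1, hφ]
      rfl)
  exact ⟨l, Additive.toMul x, hx, hlx⟩

theorem zpowers_normal_of_minimal {G : Type} [Group G] [Finite G] {p : ℕ} (hp : p.Prime)
    (N : Subgroup G) [hN : N.Normal] (hne : N ≠ ⊥)
    (hmin : ∀ L : Subgroup G, L.Normal → L ≤ N → L = ⊥ ∨ L = N)
    (hcomm : ∀ a ∈ N, ∀ b ∈ N, a * b = b * a) (hpow : ∀ x ∈ N, x ^ p = 1)
    (h1 : ∀ g h : G, ∀ x ∈ N, (g * h) * x * (g * h)⁻¹ = (h * g) * x * (h * g)⁻¹)
    (h2 : ∀ g : G, ∀ x ∈ N, g ^ (p - 1) * x * (g ^ (p - 1))⁻¹ = x) :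
    ∀ x ∈ N, (zpowers x).Normal := by
  have hfact : Fact p.Prime := ⟨hp⟩
  have key : ∀ g : G, ∃ l : ℕ, ∀ x ∈ N, g * x * g⁻¹ = x ^ l := by
    intro g
    let _ : CommGroup N := { (inferInstance : Group N) with
      mul_comm := fun a b => Subtype.ext (hcomm a a.2 b b.2) }
    have : Nontrivial N := (Subgroup.nontrivial_iff_ne_bot N).2 hne
    have hpow' : ∀ x : N, x ^ p = 1 := fun x => Subtype.ext (by simpa using hpow _ x.2)
    have hφ : (MulAut.conjNormal g : MulAut N) ^ (p - 1) = 1 := by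
      rw [← map_pow]
      ext x
      rw [MulAut.conjNormal_apply]
      exact h2 g x x.2
    obtain ⟨l, v, hv1, hv⟩ := exists_pow_eigen hpow' (MulAut.conjNormal g) hφ
    refine ⟨l, ?_⟩
    let L : Subgroup G :=
      { carrier := {x | x ∈ N ∧ g * x * g⁻¹ = x ^ l}
        one_mem' := ⟨N.one_mem, by simp⟩
        mul_mem' := by
          rintro a b ⟨ha, ha'⟩ ⟨hb, hb'⟩
          refine ⟨N.mul_mem ha hb, ?_⟩
          have hab : Commute a b := hcomm a ha b hb
          rw [hab.mul_pow, ← ha', ← hb']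
          group
        inv_mem' := by
          rintro a ⟨ha, ha'⟩
          refine ⟨N.inv_mem ha, ?_⟩
          rw [inv_pow, ← ha']
          group }
    have hL : L.Normal := by
      constructor
      rintro a ⟨ha, ha'⟩ h
      refine ⟨hN.conj_mem a ha h, ?_⟩
      rw [conj_pow, ← ha']
      have := h1 g h a ha
      calc g * (h * a * h⁻¹) * g⁻¹ = (g * h) * a * (g * h)⁻¹ := by group
        _ = (h * g) * a * (h * g)⁻¹ := this
        _ = h * (g * a * g⁻¹) * h⁻¹ := by group
    have hvL : (v : G) ∈ L := by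
      refine ⟨v.2, ?_⟩
      have h5 := congrArg (fun t : N => (t : G)) hv
      simp only [MulAut.conjNormal_apply] at h5
      rw [h5]
      rfl
    rcases hmin L hL (fun x hx => hx.1) with h3 | h3
    · exfalso
      rw [h3, mem_bot] at hvL
      exact hv1 (Subtype.ext hvL)
    · intro x hx
      rw [← h3] at hx
      exact hx.2
  intro x hx
  constructor
  rintro _ ⟨k, rfl⟩ g
  obtain ⟨l, hl⟩ := key g
  refine ⟨l * k, ?_⟩
  simp only
  rw [← conj_zpow, hl x hx, zpow_mul, zpow_natCast]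

end Pool.Agent.Lib.MP_b21f3c_al
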