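import Pool.Agent.Lib.MP_b21f3c_al.Main

set_option autoImplicit false

namespace Pool.Agent.Lib.MP_b21f3c_al

open Subgroup
open scoped commutatorElement

section

variable {E : Type} [Group E] (A : Subgroup E) [hA : A.Normal]

/-- pairs congruent modulo `A` -/
def Del : Subgroup (E × E) where
  carrier := {d | d.1 * d.2⁻¹ ∈ A}
  one_mem' := by simp [A.one_mem]
  mul_mem' := by
    rintro ⟨a, b⟩ ⟨c, d⟩ h1 h2
    change a * c * (b * d)⁻¹ ∈ A
    have h1' : a * b⁻¹ ∈ A := h1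
    have h2' : c * d⁻¹ ∈ A := h2
    have h3 : a * c * (b * d)⁻¹ = (a * (c * d⁻¹) * a⁻¹) * (a * b⁻¹) := by group
    rw [h3]
    exact A.mul_mem (hA.conj_mem _ h2' a) h1'
  inv_mem' := by
    rintro ⟨a, b⟩ h1
    have h1' : a * b⁻¹ ∈ A := h1
    change a⁻¹ * (b⁻¹)⁻¹ ∈ A
    have h3 : a⁻¹ * (b⁻¹)⁻¹ = a⁻¹ * (a * b⁻¹)⁻¹ * (a⁻¹)⁻¹ := by group
    rw [h3]
    exact hA.conj_mem _ (A.inv_mem h1') a⁻¹

theorem del_mem (d : Del A) (v : A) : (d : E × E).1 * v * (d : E × E).2⁻¹ ∈ A := by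
  obtain ⟨⟨a, b⟩, h⟩ := d
  have h1 : a * b⁻¹ ∈ A := h
  change a * v * b⁻¹ ∈ A
  have h3 : a * v * b⁻¹ = (a * v * a⁻¹) * (a * b⁻¹) := by group
  rw [h3]
  exact A.mul_mem (hA.conj_mem _ v.2 a) h1

/-- the action on the set `A` -/
def delPerm : Del A →* Equiv.Perm A where
  toFun d :=
    { toFun := fun v => ⟨(d : E × E).1 * v * (d : E × E).2⁻¹, del_mem A d v⟩
      invFun := fun v => ⟨((d⁻¹ : Del A) : E × E).1 * v * ((d⁻¹ : Del A) : E × E).2⁻¹,
        del_mem A d⁻¹ v⟩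
      left_inv := by
        intro v
        apply Subtype.ext
        change (d : E × E).1⁻¹ * ((d : E × E).1 * v * (d : E × E).2⁻¹) * ((d : E × E).2⁻¹)⁻¹ = v
        group
      right_inv := by
        intro v
        apply Subtype.ext
        change (d : E × E).1 * ((d : E × E).1⁻¹ * v * ((d : E × E).2⁻¹)⁻¹) * (d : E × E).2⁻¹ = v
        group }
  map_one' := by
    ext v
    change (1 : E) * v * (1 : E)⁻¹ = v
    group
  map_mul' := by
    intro d e
    ext v
    change ((d : E × E).1 * (e : E × E).1) * v * ((d : E × E).2 * (e : E × E).2)⁻¹ =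
      (d : E × E).1 * ((e : E × E).1 * v * (e : E × E).2⁻¹) * (d : E × E).2⁻¹
    group

theorem delPerm_apply (d : Del A) (v : A) :
    ((delPerm A d v : A) : E) = (d : E × E).1 * v * (d : E × E).2⁻¹ := rfl

end

/-- A group of the class cannot have a `q`-subgroup acting in a nonabelian way on an abelian
normal subgroup of exponent `p`. -/
theorem Cl.no_action {H : (G : Type) → [Group G] → Prop} (h : Cl H) {p q : ℕ} (hp : p.Prime)
    (hq : q.Prime) (hqp : q ∣ p - 1) {E : Type} [Group E] [Finite E] (hE : H E)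
    (A : Subgroup E) [hA : A.Normal] (hAp : ∀ x ∈ A, x ^ p = 1) (Q : Subgroup E)
    (hQ : IsPGroup q Q) (a₀ b₀ : E) (ha₀ : a₀ ∈ Q) (hb₀ : b₀ ∈ Q) (x : E) (hx : x ∈ A)
    (hne : ¬ Commute (a₀ * b₀ * a₀⁻¹ * b₀⁻¹) x) : False := by
  have hDel : H (Del A) := h.her _ (Del A) (h.prod hE hE)
  have hT : H (delPerm A).range := h.of_surj _ (delPerm A).rangeRestrict_surjective hDel
  -- the translation subgroup
  let P₀ : Subgroup (Del A) :=
    { carrier := {d | (d : E × E).1 ∈ A ∧ (d : E × E).2 ∈ A}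
      one_mem' := ⟨A.one_mem, A.one_mem⟩
      mul_mem' := by
        rintro d e ⟨h1, h2⟩ ⟨h3, h4⟩
        exact ⟨A.mul_mem h1 h3, A.mul_mem h2 h4⟩
      inv_mem' := by
        rintro d ⟨h1, h2⟩
        exact ⟨A.inv_mem h1, A.inv_mem h2⟩ }
  have hP₀n : P₀.Normal := by
    constructor
    rintro d ⟨h1, h2⟩ g
    exact ⟨hA.conj_mem _ h1 _, hA.conj_mem _ h2 _⟩
  have hP₀ : IsPGroup p P₀ := by
    rintro ⟨⟨⟨a, b⟩, hd⟩, h1, h2⟩
    refine ⟨1, Subtype.ext (Subtype.ext ?_)⟩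
    change ((a, b) : E × E) ^ p ^ 1 = 1
    rw [pow_one, Prod.pow_mk, hAp a h1, hAp b h2]
    rfl
  let P : Subgroup (delPerm A).range := P₀.map (delPerm A).rangeRestrict
  have hPn : P.Normal := Subgroup.Normal.map hP₀n _ (delPerm A).rangeRestrict_surjective
  have hP : IsPGroup p P := hP₀.map _
  have htrans : ∀ τ τ' : A, ∃ x ∈ P, (x : Equiv.Perm A) τ = τ' := by
    intro τ τ'
    have hd : ((τ' : E) * (τ : E)⁻¹, (1 : E)) ∈ Del A := by
      change (τ' : E) * (τ : E)⁻¹ * (1 : E)⁻¹ ∈ A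
      rw [inv_one, mul_one]
      exact A.mul_mem τ'.2 (A.inv_mem τ.2)
    refine ⟨(delPerm A).rangeRestrict ⟨_, hd⟩, ⟨⟨_, hd⟩, ⟨?_, A.one_mem⟩, rfl⟩, ?_⟩
    · exact A.mul_mem τ'.2 (A.inv_mem τ.2)
    · apply Subtype.ext
      change (τ' : E) * (τ : E)⁻¹ * τ * (1 : E)⁻¹ = τ'
      group
  -- the diagonal
  let dg : E →* Del A :=
    { toFun := fun e => ⟨(e, e), by
        change e * e⁻¹ ∈ A
        rw [mul_inv_cancel]
        exact A.one_mem⟩
      map_one' := rfl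
      map_mul' := fun _ _ => rfl }
  let κ : E →* (delPerm A).range := (delPerm A).rangeRestrict.comp dg
  have hκ : ∀ (e : E) (v : A), (((κ e : Equiv.Perm A) v : A) : E) = e * v * e⁻¹ := fun _ _ => rfl
  have hnonempty : Nonempty A := ⟨1⟩
  refine h.contra hp hq hqp (delPerm A).range hT P hP htrans (Q.map κ) (hQ.map κ) (κ a₀) (κ b₀)
    ⟨a₀, ha₀, rfl⟩ ⟨b₀, hb₀, rfl⟩ ?_
  intro hcm
  apply hne
  have h1 : κ (a₀ * b₀ * a₀⁻¹ * b₀⁻¹) = 1 := by
    rw [map_mul, map_mul, map_mul, map_inv, map_inv, hcm.eq]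
    group
  have h2 := hκ (a₀ * b₀ * a₀⁻¹ * b₀⁻¹) ⟨x, hx⟩
  rw [h1] at h2
  have h3 : x = (a₀ * b₀ * a₀⁻¹ * b₀⁻¹) * x * (a₀ * b₀ * a₀⁻¹ * b₀⁻¹)⁻¹ := h2
  rw [eq_mul_inv_iff_mul_eq] at h3
  exact h3.symm

/-- Every member of the set `M` is contained in `H0`. -/
theorem Cl.le_H0 {H : (G : Type) → [Group G] → Prop} (h : Cl H) {G : Type} [Group G] [Finite G]
    (hG : H G) : H0 G := by
  intro p q hp hq hqp
  have hfact : Fact p.Prime := ⟨hp⟩
  have hfactq : Fact q.Prime := ⟨hq⟩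
  let K : Subgroup G := normalClosure {x | ∃ Q : Subgroup G, IsPGroup q Q ∧ x ∈ ⁅Q, Q⁆}
  have hKn : K.Normal := inferInstance
  let M : Subgroup G := closure {x | x ∈ K ∧ ¬ p ∣ orderOf x}
  have hMn : M.Normal := by
    constructor
    intro x hx g
    have h1 : M ≤ M.comap (MulAut.conj g).toMonoidHom := by
      rw [closure_le]
      rintro y ⟨hy1, hy2⟩
      apply Subgroup.subset_closure
      refine ⟨hKn.conj_mem y hy1 g, ?_⟩
      have : orderOf ((MulAut.conj g).toMonoidHom y) = orderOf y :=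
        MulEquiv.orderOf_eq (MulAut.conj g) y
      rw [this]
      exact hy2
    exact h1 hx
  have hMK : M ≤ K := by
    rw [closure_le]
    rintro y ⟨hy1, -⟩
    exact hy1
  have hKM : ∀ x ∈ K, ∃ n : ℕ, x ^ p ^ n ∈ M := by
    intro x hx
    obtain ⟨e, m, hm, hem⟩ := Nat.exists_eq_pow_mul_and_not_dvd (orderOf_pos x).ne' p hp.ne_one
    refine ⟨e, Subgroup.subset_closure ⟨K.pow_mem hx _, ?_⟩⟩
    rw [orderOf_pow_of_dvd (pow_ne_zero _ hp.ne_zero) (by rw [hem]; exact dvd_mul_right _ _),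
      hem, Nat.mul_div_cancel_left _ (pow_pos hp.pos _)]
    exact hm
  refine ⟨K, M, hKn, hMn, ?_, hKM, ?_⟩
  · -- `M` is a `p'`-group
    intro y hyM hyp
    by_contra hy1
    have hpM : p ∣ Nat.card M := by
      have hord : orderOf y = p := by
        rcases (Nat.dvd_prime hp).1 (orderOf_dvd_of_pow_eq_one hyp) with h | h
        · exact absurd (orderOf_eq_one_iff.1 h) hy1
        · exact h
      rw [← hord]
      exact (Subgroup.orderOf_mk y hyM) ▸ orderOf_dvd_natCard (⟨y, hyM⟩ : M)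
    have hgen : M ≤ closure {x | x ∈ M ∧ ¬ p ∣ orderOf x} := by
      apply (closure_le _).2
      rintro x ⟨hx1, hx2⟩
      exact Subgroup.subset_closure ⟨Subgroup.subset_closure ⟨hx1, hx2⟩, hx2⟩
    obtain ⟨E, _, _, π, hπ, hker, hkp, hkab, m, hmM, x, hx, hmx⟩ :=
      exists_frattini_ext hp M hpM hgen
    have hE : H E := h.of_frattini π hπ hker hG
    let C : Subgroup E := centralizer (π.ker : Set E)
    have hCn : C.Normal := inferInstance
    have hG₀ : (C.map π).Normal := Subgroup.Normal.map hCn π hπ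
    have hmC : ∀ g : E, π g ∈ C.map π → g ∈ C := by
      rintro g ⟨c, hc, hcg⟩
      have h1 : c⁻¹ * g ∈ π.ker := by
        rw [MonoidHom.mem_ker, map_mul, map_inv, hcg, inv_mul_cancel]
      have h2 : c⁻¹ * g ∈ C := by
        rw [mem_centralizer_iff]
        intro t ht
        exact hkab t ht _ h1
      have h3 := C.mul_mem hc h2
      simpa using h3
    have hnle : ¬ K ≤ C.map π := by
      intro hle
      have h1 := hmC m (hle (hMK hmM))
      exact hmx ((mem_centralizer_iff.1 h1 x hx).symm)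
    obtain ⟨Q, hQ, hQC⟩ : ∃ Q : Subgroup G, IsPGroup q Q ∧ ¬ ⁅Q, Q⁆ ≤ C.map π := by
      by_contra hcon
      push Not at hcon
      apply hnle
      apply normalClosure_le_normal
      rintro t ⟨Q, hQ, ht⟩
      exact hcon Q hQ ht
    obtain ⟨S', hS'⟩ := hQ.exists_le_sylow
    obtain ⟨S, hS⟩ := Sylow.mapSurjective_surjective hπ q S'
    have hS3 : (S' : Subgroup G) = (S : Subgroup E).map π := by
      rw [← hS]
      exact Sylow.coe_mapSurjective hπ S
    obtain ⟨a₁, ha₁, b₁, hb₁, hab₁⟩ : ∃ a₁ ∈ Q, ∃ b₁ ∈ Q, ⁅a₁, b₁⁆ ∉ C.map π := by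
      by_contra hcon
      push Not at hcon
      exact hQC ((Subgroup.commutator_le).2 hcon)
    have ha₁' : a₁ ∈ (S : Subgroup E).map π := by rw [← hS3]; exact hS' ha₁
    have hb₁' : b₁ ∈ (S : Subgroup E).map π := by rw [← hS3]; exact hS' hb₁
    obtain ⟨a₀, ha₀, rfl⟩ := ha₁'
    obtain ⟨b₀, hb₀, rfl⟩ := hb₁'
    have h4 : a₀ * b₀ * a₀⁻¹ * b₀⁻¹ ∉ C := by
      intro h5
      apply hab₁
      refine ⟨_, h5, ?_⟩
      rw [commutatorElement_def]
      simp
    obtain ⟨y, hy, hyc⟩ : ∃ y ∈ π.ker, ¬ Commute (a₀ * b₀ * a₀⁻¹ * b₀⁻¹) y := by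
      by_contra hcon
      push Not at hcon
      apply h4
      rw [mem_centralizer_iff]
      intro t ht
      exact (hcon t ht).eq.symm
    exact h.no_action hp hq hqp hE π.ker hkp S S.isPGroup' a₀ b₀ ha₀ hb₀ y hy hyc
  · apply absyl_of_sylow hq (MonoidHom.id G) Function.surjective_id K
    intro Q hQ
    rw [Subgroup.map_id]
    intro x hx
    exact subset_normalClosure ⟨Q, hQ, hx⟩

/-- `H0` itself has all the closure properties. -/
theorem cl_H0 : Cl H0 where
  iso := by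
    intro G G' _ _ hfin ⟨e⟩ h p q hp hq hqp
    exact (h p q hp hq hqp).of_injective e.symm.toMonoidHom e.symm.injective
  quot := by
    intro G _ _ N _ h p q hp hq hqp
    exact (h p q hp hq hqp).of_surjective hp hq (QuotientGroup.mk' N)
      (QuotientGroup.mk'_surjective N)
  subd := by
    intro G _ _ N₁ N₂ _ _ hbot h1 h2 p q hp hq hqp
    apply Loc.subdirect (QuotientGroup.mk' N₁) (QuotientGroup.mk' N₂) _ (h1 p q hp hq hqp)
      (h2 p q hp hq hqp)
    rw [QuotientGroup.ker_mk', QuotientGroup.ker_mk']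
    exact hbot
  her := by
    intro G _ _ K h p q hp hq hqp
    exact (h p q hp hq hqp).of_injective K.subtype (subtype_injective K)
  sat := by
    intro G _ _ h p q hp hq hqp
    exact Loc.of_frattini hp _ G (frattini G) le_rfl le_rfl (h p q hp hq hqp)
  ss := by
    intro G _ _ h p q hp hq hqp
    exact SS.loc hp _ G le_rfl h
  rad := by
    intro G _ _ h A B hA hB hSA hSB
    exact radical h A B hA hB hSA hSB

end Pool.Agent.Lib.MP_b21f3c_al
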