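import Pool.Agent.Lib.MP_b21f3c_al.SD

set_option autoImplicit false

namespace Pool.Agent.Lib.MP_b21f3c_al

open Subgroup

section

variable (p : ℕ) (G : Type) [Group G]

/-- right translation action on functions of two variables -/
def act2 : Act G (G → G → ZMod p) where
  a g :=
    { toFun := fun f x y => f (x * g) (y * g)
      map_zero' := rfl
      map_add' := fun _ _ => rfl }
  one f := by
    funext x y
    simp
  mul g h f := by
    funext x y
    simp [mul_assoc]

@[simp] theorem act2_apply (g : G) (f : G → G → ZMod p) (x y : G) :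
    (act2 p G).a g f x y = f (x * g) (y * g) := rfl

variable [Fintype G]

/-- the boundary map -/
def dd : (G → G → ZMod p) →+ (G → ZMod p) where
  toFun f z := ∑ x, f x z - ∑ y, f z y
  map_zero' := by
    funext z
    simp
  map_add' f g := by
    funext z
    simp only [Pi.add_apply, Finset.sum_add_distrib]
    abel

omit [Group G] in
theorem dd_apply (f : G → G → ZMod p) (z : G) :
    dd p G f z = ∑ x, f x z - ∑ y, f z y := rfl

theorem dd_act (f : G → G → ZMod p) (g z : G) :
    dd p G ((act2 p G).a g f) z = dd p G f (z * g) := by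
  rw [dd_apply, dd_apply]
  congr 1
  · exact Fintype.sum_equiv (Equiv.mulRight g) _ _ (fun x => rfl)
  · exact Fintype.sum_equiv (Equiv.mulRight g) _ _ (fun x => rfl)

end

/-- double counting -/
theorem sum_dd_eq_zero {p : ℕ} {G : Type} [Group G] [Fintype G] (M : Subgroup G)
    (f : G → G → ZMod p) (hf : ∀ m ∈ M, ∀ x y, f (x * m) (y * m) = f x y) :
    ∑ᶠ Z : G ⧸ M, dd p G f Z.out = 0 := by
  classical
  have : Fintype (G ⧸ M) := Fintype.ofFinite _
  have : Fintype M := Fintype.ofFinite _
  rw [finsum_eq_sum_of_fintype]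
  have hbij : Function.Bijective (fun u : (G ⧸ M) × M => u.1.out * (u.2 : G)) := by
    constructor
    · rintro ⟨X, m⟩ ⟨X', m'⟩ h
      simp only at h
      have h1 : X = X' := by
        have h2 : ((X.out * (m : G) : G) : G ⧸ M) = ((X'.out * (m' : G) : G) : G ⧸ M) := by
          rw [h]
        rw [QuotientGroup.mk_mul_of_mem _ m.2, QuotientGroup.mk_mul_of_mem _ m'.2,
          QuotientGroup.out_eq', QuotientGroup.out_eq'] at h2
        exact h2
      subst h1
      have h3 : m = m' := Subtype.ext (mul_left_cancel h)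
      rw [h3]
    · intro g
      refine ⟨((g : G ⧸ M), ⟨(g : G ⧸ M).out⁻¹ * g, ?_⟩), ?_⟩
      · rw [← QuotientGroup.eq, QuotientGroup.out_eq']
      · simp
  have h1 : ∀ h : G → ZMod p, ∑ x, h x = ∑ X : G ⧸ M, ∑ m : M, h (X.out * (m : G)) := by
    intro h
    rw [← Fintype.sum_prod_type']
    exact (Function.Bijective.sum_comp hbij h).symm
  simp only [dd_apply, Finset.sum_sub_distrib]
  rw [sub_eq_zero]
  calc ∑ Z : G ⧸ M, ∑ x, f x Z.out
      = ∑ Z : G ⧸ M, ∑ X : G ⧸ M, ∑ m : M, f (X.out * (m : G)) Z.out := by
        simp_rw [h1]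
    _ = ∑ Z : G ⧸ M, ∑ X : G ⧸ M, ∑ m : M, f X.out (Z.out * ((m⁻¹ : M) : G)) := by
        refine Finset.sum_congr rfl fun Z _ => Finset.sum_congr rfl fun X _ =>
          Finset.sum_congr rfl fun m _ => ?_
        rw [← hf ((m⁻¹ : M) : G) (m⁻¹ : M).2 (X.out * (m : G)) Z.out]
        congr 1
        simp
    _ = ∑ Z : G ⧸ M, ∑ X : G ⧸ M, ∑ m : M, f X.out (Z.out * (m : G)) := by
        refine Finset.sum_congr rfl fun Z _ => Finset.sum_congr rfl fun X _ => ?_
        exact Equiv.sum_comp (Equiv.inv M) (fun m : M => f X.out (Z.out * (m : G)))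
    _ = ∑ X : G ⧸ M, ∑ Z : G ⧸ M, ∑ m : M, f X.out (Z.out * (m : G)) := Finset.sum_comm
    _ = ∑ Z : G ⧸ M, ∑ y, f Z.out y := by
        simp_rw [h1]

/-- The Frattini extension. -/
theorem exists_frattini_ext {p : ℕ} (hp : p.Prime) {G : Type} [Group G] [Finite G]
    (M : Subgroup G) [hM : M.Normal] (hpM : p ∣ Nat.card M)
    (hgen : M ≤ closure {x | x ∈ M ∧ ¬ p ∣ orderOf x}) :
    ∃ (E : Type) (_ : Group E) (_ : Finite E) (π : E →* G), Function.Surjective π ∧
      π.ker ≤ frattini E ∧ (∀ x ∈ π.ker, x ^ p = 1) ∧
      (∀ x ∈ π.ker, ∀ y ∈ π.ker, x * y = y * x) ∧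
      ∃ m : E, π m ∈ M ∧ ∃ x ∈ π.ker, m * x ≠ x * m := by
  classical
  have hfact : Fact p.Prime := ⟨hp⟩
  have : Fintype G := Fintype.ofFinite _
  have : Fintype M := Fintype.ofFinite _
  let S := SD (act2 p G)
  let u : G → ZMod p := fun z => if z = 1 then 1 else 0
  let E : Subgroup S :=
    { carrier := {s | ∀ z, dd p G s.v z = u (z * s.g) - u z}
      one_mem' := by
        intro z
        simp
      mul_mem' := by
        intro a b ha hb z
        rw [SD.mul_v, SD.mul_g, map_add, Pi.add_apply, ha z, dd_act, hb, mul_assoc]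
        ring
      inv_mem' := by
        intro a ha z
        rw [SD.inv_v, SD.inv_g, map_neg, Pi.neg_apply, dd_act, ha]
        simp }
  have hEtop : E.map (SD.proj (act2 p G)) = ⊤ := by
    rw [eq_top_iff]
    intro g _
    refine ⟨⟨fun x y => if x = 1 ∧ y = g⁻¹ then 1 else 0, g⟩, ?_, rfl⟩
    intro z
    rw [dd_apply]
    have e1 : (∑ x : G, if x = 1 ∧ z = g⁻¹ then (1 : ZMod p) else 0) =
        if z = g⁻¹ then 1 else 0 := by
      by_cases hz : z = g⁻¹
      · simp [hz]
      · simp [hz]
    have e2 : (∑ y : G, if z = 1 ∧ y = g⁻¹ then (1 : ZMod p) else 0) =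
        if z = 1 then 1 else 0 := by
      by_cases hz : z = 1
      · simp [hz]
      · simp [hz]
    have e3 : (z * g = 1) ↔ z = g⁻¹ := mul_eq_one_iff_eq_inv
    simp only [e1, e2, u, e3]
  obtain ⟨T, hTE, hT, hker⟩ := exists_min_supplement (SD.proj (act2 p G)) E hEtop
  refine ⟨T, inferInstance, inferInstance, (SD.proj (act2 p G)).comp T.subtype, ?_, hker, ?_, ?_,
    ?_⟩
  · intro g
    have : g ∈ T.map (SD.proj (act2 p G)) := by rw [hT]; exact mem_top g
    obtain ⟨t, ht, rfl⟩ := this
    exact ⟨⟨t, ht⟩, rfl⟩
  · rintro ⟨⟨f, g⟩, ht⟩ hx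
    have hg : g = 1 := hx
    subst hg
    apply Subtype.ext
    change (⟨f, 1⟩ : S) ^ p = 1
    rw [SD.pow_mk_one]
    apply SD.ext
    · funext x y
      simp
    · rfl
  · rintro ⟨⟨f, g⟩, ht⟩ hx ⟨⟨f', g'⟩, ht'⟩ hx'
    have hg : g = 1 := hx
    have hg' : g' = 1 := hx'
    subst hg hg'
    apply Subtype.ext
    apply SD.ext
    · change f + (act2 p G).a 1 f' = f' + (act2 p G).a 1 f
      rw [(act2 p G).one, (act2 p G).one, add_comm]
    · rfl
  · by_contra hcon
    push Not at hcon
    -- elements of `M` lifted
    have hlift : ∀ k : M, ∃ t : S, t ∈ T ∧ t.g = k := by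
      intro k
      have : (k : G) ∈ T.map (SD.proj (act2 p G)) := by rw [hT]; exact mem_top _
      obtain ⟨t, ht, htk⟩ := this
      exact ⟨t, ht, htk⟩
    choose t htT htg using hlift
    have hfix : ∀ m : M, ∀ w : G → G → ZMod p, (⟨w, 1⟩ : S) ∈ T →
        (act2 p G).a (m : G) w = w := by
      intro m w hw
      have h1 := hcon ⟨t m, htT m⟩ (by
        change (t m).g ∈ M
        rw [htg]
        exact m.2) ⟨⟨w, 1⟩, hw⟩ rfl
      have h2 := congrArg (fun a : T => (a : S).v) h1
      change (t m).v + (act2 p G).a (t m).g w = w + (act2 p G).a 1 (t m).v at h2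
      rw [(act2 p G).one, htg, add_comm] at h2
      exact add_right_cancel h2
    let A' : AddSubgroup (G → G → ZMod p) :=
      { carrier := {w | (⟨w, 1⟩ : S) ∈ T}
        zero_mem' := T.one_mem
        add_mem' := by
          intro a b ha hb
          have h1 := T.mul_mem ha hb
          have h2 : (⟨a, 1⟩ * ⟨b, 1⟩ : S) = ⟨a + b, 1⟩ := by
            apply SD.ext
            · change a + (act2 p G).a 1 b = a + b
              rw [(act2 p G).one]
            · exact one_mul 1
          rw [h2] at h1
          exact h1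
        neg_mem' := by
          intro a ha
          have h1 := T.inv_mem ha
          have h2 : (⟨a, 1⟩⁻¹ : S) = ⟨-a, 1⟩ := by
            apply SD.ext
            · change -(act2 p G).a 1⁻¹ a = -a
              rw [inv_one, (act2 p G).one]
            · exact inv_one
          rw [h2] at h1
          exact h1 }
    have hp0 : ∀ w : G → G → ZMod p, p • w = 0 := by
      intro w
      funext x y
      simp
    have hcard0 : ∀ w : G → G → ZMod p, (∑ _k : M, w) = 0 := by
      intro w
      rw [Finset.sum_const, Finset.card_univ, ← Nat.card_eq_fintype_card]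
      obtain ⟨c, hc⟩ := hpM
      rw [hc, mul_comm, mul_smul, hp0, smul_zero]
    let f : G → G → ZMod p := ∑ k : M, (t k).v
    have hmem : ∀ g : M, (act2 p G).a (g : G) f - f ∈ A' := by
      intro g
      have h1 : ∀ k : M, (t g).v + (act2 p G).a (g : G) (t k).v - (t (g * k)).v ∈ A' := by
        intro k
        have h2 := T.mul_mem (T.mul_mem (htT g) (htT k)) (T.inv_mem (htT (g * k)))
        have h3 : t g * t k * (t (g * k))⁻¹ =
            ⟨(t g).v + (act2 p G).a (g : G) (t k).v - (t (g * k)).v, 1⟩ := by
          apply SD.ext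
          · change ((t g).v + (act2 p G).a (t g).g (t k).v) + (act2 p G).a ((t g).g * (t k).g)
              (-(act2 p G).a (t (g * k)).g⁻¹ (t (g * k)).v) = _
            rw [htg, htg, htg, map_neg, ← (act2 p G).mul, Subgroup.coe_mul, mul_inv_cancel,
              (act2 p G).one, sub_eq_add_neg]
          · change (t g).g * (t k).g * (t (g * k)).g⁻¹ = 1
            rw [htg, htg, htg, Subgroup.coe_mul, mul_inv_cancel]
        rw [h3] at h2
        exact h2
      have h4 := A'.sum_mem (fun k _ => h1 k) (t := Finset.univ)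
      rw [Finset.sum_sub_distrib, Finset.sum_add_distrib, hcard0, zero_add, ← map_sum] at h4
      have h5 : ∑ k : M, (t (g * k)).v = f :=
        Equiv.sum_comp (Equiv.mulLeft g) (fun k => (t k).v)
      rw [h5] at h4
      exact h4
    have hstab : ∀ g : G, g ∈ M → (act2 p G).a g f = f := by
      let St : Subgroup G :=
        { carrier := {g | (act2 p G).a g f = f}
          one_mem' := (act2 p G).one f
          mul_mem' := by
            intro a b ha hb
            change (act2 p G).a (a * b) f = f
            rw [(act2 p G).mul, hb, ha]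
          inv_mem' := by
            intro a ha
            change (act2 p G).a a⁻¹ f = f
            conv_lhs => rw [← ha]
            rw [← (act2 p G).mul, inv_mul_cancel, (act2 p G).one] }
      have hle : closure {x | x ∈ M ∧ ¬ p ∣ orderOf x} ≤ St := by
        rw [closure_le]
        rintro g ⟨hg, hgo⟩
        change (act2 p G).a g f = f
        have hw := hmem ⟨g, hg⟩
        set w := (act2 p G).a g f - f with hwdef
        have hgw : (act2 p G).a g w = w := hfix ⟨g, hg⟩ w hw
        have hpow : ∀ n : ℕ, (act2 p G).a (g ^ n) f = f + n • w := by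
          intro n
          induction n with
          | zero =>
            rw [pow_zero, (act2 p G).one, zero_smul, add_zero]
          | succ n ih =>
            rw [pow_succ', (act2 p G).mul, ih, map_add, map_nsmul, hgw, add_smul, one_smul,
              hwdef]
            abel
        have h1 : orderOf g • w = 0 := by
          have h2 := hpow (orderOf g)
          rw [pow_orderOf_eq_one, (act2 p G).one] at h2
          exact (left_eq_add.1 h2)
        have h3 : addOrderOf w ∣ 1 := by
          have hc : Nat.Coprime p (orderOf g) := (Nat.Prime.coprime_iff_not_dvd hp).2 hgo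
          rw [← hc.gcd_eq_one]
          exact Nat.dvd_gcd (addOrderOf_dvd_of_nsmul_eq_zero (hp0 w))
            (addOrderOf_dvd_of_nsmul_eq_zero h1)
        have h4 : w = 0 := AddMonoid.addOrderOf_eq_one_iff.1 (Nat.dvd_one.1 h3)
        rw [hwdef, sub_eq_zero] at h4
        exact h4
      intro g hg
      exact hle (hgen hg)
    have hinv : ∀ m ∈ M, ∀ x y, f (x * m) (y * m) = f x y := by
      intro m hm x y
      exact congrFun (congrFun (hstab m hm) x) y
    have hzero := sum_dd_eq_zero M f hinv
    have hdd : ∀ z, dd p G f z = if z ∈ M then 1 else 0 := by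
      intro z
      have h1 : dd p G f z = ∑ k : M, (u (z * k) - u z) := by
        change dd p G (∑ k : M, (t k).v) z = _
        rw [map_sum, Finset.sum_apply]
        refine Finset.sum_congr rfl fun k _ => ?_
        have h2 := hTE (htT k) z
        rw [h2, htg]
      rw [h1, Finset.sum_sub_distrib]
      have h2 : ∑ _k : M, u z = 0 := by
        rw [Finset.sum_const, Finset.card_univ, ← Nat.card_eq_fintype_card]
        obtain ⟨c, hc⟩ := hpM
        rw [hc, nsmul_eq_mul, Nat.cast_mul, ZMod.natCast_self, zero_mul, zero_mul]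
      rw [h2, sub_zero]
      by_cases hz : z ∈ M
      · rw [if_pos hz]
        rw [Finset.sum_eq_single (⟨z⁻¹, M.inv_mem hz⟩ : M)]
        · simp [u]
        · intro k _ hk
          have : z * (k : G) ≠ 1 := by
            intro h
            apply hk
            apply Subtype.ext
            exact (inv_eq_of_mul_eq_one_right h).symm
          simp [u, this]
        · intro h
          exact absurd (Finset.mem_univ _) h
      · rw [if_neg hz]
        apply Finset.sum_eq_zero
        intro k _
        have : z * (k : G) ≠ 1 := by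
          intro h
          apply hz
          rw [mul_eq_one_iff_eq_inv.1 h]
          exact M.inv_mem k.2
        simp [u, this]
    have : Fintype (G ⧸ M) := Fintype.ofFinite _
    rw [finsum_eq_sum_of_fintype] at hzero
    simp_rw [hdd] at hzero
    rw [Finset.sum_eq_single ((1 : G) : G ⧸ M)] at hzero
    · have h1 : (((1 : G) : G ⧸ M).out) ∈ M := by
        rw [← QuotientGroup.eq_one_iff, QuotientGroup.out_eq']
        rfl
      rw [if_pos h1] at hzero
      exact one_ne_zero hzero
    · intro Z _ hZ
      rw [if_neg]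
      intro h1
      apply hZ
      rw [← QuotientGroup.eq_one_iff, QuotientGroup.out_eq'] at h1
      rw [h1]
      rfl
    · intro h
      exact absurd (Finset.mem_univ _) h

end Pool.Agent.Lib.MP_b21f3c_al
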