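import Pool.Agent.Lib.MP_b21f3c_al.Rad

set_option autoImplicit false

namespace Pool.Agent.Lib.MP_b21f3c_al

open Subgroup
open scoped commutatorElement

theorem centralizer_of_pgroup {G : Type} [Group G] [Finite G] {p : ℕ} (hp : p.Prime)
    (K N : Subgroup G) [hK : K.Normal] [hN : N.Normal] (hKp : IsPGroup p K) (hne : N ≠ ⊥)
    (hNp : ∀ x ∈ N, x ^ p = 1)
    (hmin : ∀ L : Subgroup G, L.Normal → L ≤ N → L = ⊥ ∨ L = N) :
    ∀ k ∈ K, ∀ x ∈ N, Commute k x := by
  have hfact : Fact p.Prime := ⟨hp⟩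
  let L : Subgroup G :=
    { carrier := {x | x ∈ N ∧ ∀ k ∈ K, Commute k x}
      one_mem' := ⟨N.one_mem, fun _ _ => Commute.one_right _⟩
      mul_mem' := by
        rintro u v ⟨hu, hu2⟩ ⟨hv, hv2⟩
        exact ⟨N.mul_mem hu hv, fun a ha => (hu2 a ha).mul_right (hv2 a ha)⟩
      inv_mem' := by
        rintro u ⟨hu, hu2⟩
        exact ⟨N.inv_mem hu, fun a ha => (hu2 a ha).inv_right⟩ }
  have hLn : L.Normal := by
    constructor
    rintro u ⟨hu, hu2⟩ g
    refine ⟨hN.conj_mem u hu g, fun a ha => ?_⟩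
    have h1 := hu2 (g⁻¹ * a * g) (by simpa using hK.conj_mem a ha g⁻¹)
    have h2 := (Commute.conj_iff g).2 h1
    have h3 : g * (g⁻¹ * a * g) * g⁻¹ = a := by group
    rwa [h3] at h2
  rcases hmin L hLn (fun x hx => hx.1) with h | h
  · exfalso
    let _ : MulAction K N := MulAction.compHom N
      ((MulAut.conjNormal (H := N)).comp K.subtype)
    have hsm : ∀ (k : K) (x : N), k • x = MulAut.conjNormal (k : G) x := fun k x => rfl
    have hdvd : p ∣ Nat.card N := by
      obtain ⟨x, hx1⟩ := (Subgroup.ne_bot_iff_exists_ne_one).1 hne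
      have hord : orderOf x = p := by
        rcases (Nat.dvd_prime hp).1 (orderOf_dvd_of_pow_eq_one
          (show x ^ p = 1 from Subtype.ext (by simpa using hNp x x.2))) with h | h
        · exact absurd (orderOf_eq_one_iff.1 h) hx1
        · exact h
      rw [← hord]
      exact orderOf_dvd_natCard x
    have hfix : (1 : N) ∈ MulAction.fixedPoints K N := by
      intro k
      rw [hsm, map_one]
    obtain ⟨b, hb, hb1⟩ := hKp.exists_fixed_point_of_prime_dvd_card_of_fixed_point N hdvd hfix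
    have hbL : (b : G) ∈ L := by
      refine ⟨b.2, fun k hk => ?_⟩
      have h1 := hb ⟨k, hk⟩
      rw [hsm] at h1
      have h2 := congrArg Subtype.val h1
      rw [MulAut.conjNormal_apply] at h2
      simp only at h2
      rw [mul_inv_eq_iff_eq_mul] at h2
      exact h2
    rw [h, mem_bot] at hbL
    exact hb1 (Subtype.ext hbL).symm
  · intro k hk x hx
    rw [← h] at hx
    exact hx.2 k hk

/-- A product of two normal abelian subgroups of exponent dividing `p-1`, with abelian Sylow
`q`-subgroups for `q ∣ p-1`, is abelian. -/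
theorem commute_of_absyl {G : Type} [Group G] {n : ℕ} (hn : 0 < n) (A B : Subgroup G)
    [hA : A.Normal] [hB : B.Normal]
    (hAc : ∀ a ∈ A, ∀ b ∈ A, Commute a b) (hBc : ∀ a ∈ B, ∀ b ∈ B, Commute a b)
    (hAn : ∀ a ∈ A, a ^ n = 1) (hBn : ∀ a ∈ B, a ^ n = 1)
    (hsyl : ∀ q : ℕ, q.Prime → q ∣ n → ∀ X : Subgroup G, IsPGroup q X →
      ∀ x ∈ X, ∀ y ∈ X, Commute x y) :
    ∀ a ∈ A, ∀ b ∈ B, Commute a b := by
  intro a ha b hb
  set c : G := a * b * a⁻¹ * b⁻¹ with hc
  have hcA : c ∈ A := by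
    have h1 : c = a * (b * a⁻¹ * b⁻¹) := by rw [hc]; group
    rw [h1]
    exact A.mul_mem ha (hA.conj_mem _ (A.inv_mem ha) b)
  have hcB : c ∈ B := B.mul_mem (hB.conj_mem b hb a) (B.inv_mem hb)
  have hab : a * b = c * b * a := by rw [hc]; group
  have hac : Commute a c := hAc a ha c hcA
  have hbc : Commute b c := hBc b hb c hcB
  have hcn : c ^ n = 1 := hAn c hcA
  have hq : ∀ q : ℕ, q.Prime → q ∣ n → ∃ m : ℕ, ¬ q ∣ m ∧ c ^ (m * m) = 1 := by
    intro q hq hqn
    have hfact : Fact q.Prime := ⟨hq⟩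
    obtain ⟨e, m, hm, hem⟩ := Nat.exists_eq_pow_mul_and_not_dvd hn.ne' q hq.ne_one
    refine ⟨m, hm, ?_⟩
    let YA : Subgroup G :=
      { carrier := {x | x ∈ A ∧ x ^ q ^ e = 1}
        one_mem' := ⟨A.one_mem, one_pow _⟩
        mul_mem' := by
          rintro u v ⟨hu, hu2⟩ ⟨hv, hv2⟩
          exact ⟨A.mul_mem hu hv, by rw [(hAc u hu v hv).mul_pow, hu2, hv2, one_mul]⟩
        inv_mem' := by
          rintro u ⟨hu, hu2⟩
          exact ⟨A.inv_mem hu, by rw [inv_pow, hu2, inv_one]⟩ }
    let YB : Subgroup G :=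
      { carrier := {x | x ∈ B ∧ x ^ q ^ e = 1}
        one_mem' := ⟨B.one_mem, one_pow _⟩
        mul_mem' := by
          rintro u v ⟨hu, hu2⟩ ⟨hv, hv2⟩
          exact ⟨B.mul_mem hu hv, by rw [(hBc u hu v hv).mul_pow, hu2, hv2, one_mul]⟩
        inv_mem' := by
          rintro u ⟨hu, hu2⟩
          exact ⟨B.inv_mem hu, by rw [inv_pow, hu2, inv_one]⟩ }
    have hYAn : YA.Normal := by
      constructor
      rintro u ⟨hu, hu2⟩ g
      exact ⟨hA.conj_mem u hu g, by rw [conj_pow, hu2]; simp⟩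
    have hYA : IsPGroup q YA := fun x => ⟨e, Subtype.ext (by simpa using x.2.2)⟩
    have hYB : IsPGroup q YB := fun x => ⟨e, Subtype.ext (by simpa using x.2.2)⟩
    have hY : IsPGroup q (YA ⊔ YB : Subgroup G) := hYA.to_sup_of_normal_left hYB
    have ham : a ^ m ∈ YA := by
      refine ⟨A.pow_mem ha m, ?_⟩
      rw [← pow_mul, mul_comm, ← hem]
      exact hAn a ha
    have hbm : b ^ m ∈ YB := by
      refine ⟨B.pow_mem hb m, ?_⟩
      rw [← pow_mul, mul_comm, ← hem]
      exact hBn b hb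
    have h2 := hsyl q hq hqn (YA ⊔ YB) hY _ (mem_sup_left ham) _ (mem_sup_right hbm)
    have h3 := central_comm_pow hab hac hbc m m
    rw [h2.eq, mul_assoc] at h3
    exact (mul_eq_right.1 h3.symm)
  have hc1 : c = 1 := by
    by_contra hne
    have hord : orderOf c ≠ 1 := fun h => hne (orderOf_eq_one_iff.1 h)
    obtain ⟨q, hqp, hqd⟩ := Nat.exists_prime_and_dvd hord
    obtain ⟨m, hm, hcm⟩ := hq q hqp (hqd.trans (orderOf_dvd_of_pow_eq_one hcn))
    have h1 : q ∣ m * m := hqd.trans (orderOf_dvd_of_pow_eq_one hcm)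
    rcases (Nat.Prime.dvd_mul hqp).1 h1 with h | h
    · exact hm h
    · exact hm h
  rw [Commute, SemiconjBy, hab, hc1, one_mul]

/-- The main induction for the radical property. -/
theorem radical_top (n : ℕ) : ∀ (G : Type) [Group G] [Finite G], Nat.card G ≤ n → H0 G →
    ∀ A B : Subgroup G, A.Normal → B.Normal → A ⊔ B = ⊤ → SS A → SS B → SS G := by
  induction n with
  | zero =>
    intro G _ _ hc
    have : 0 < Nat.card G := Nat.card_pos
    omega
  | succ n ih =>
    intro G _ _ hc h0 A B hAn hBn hAB hA hB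
    rcases subsingleton_or_nontrivial G with hs | hnt
    · exact SS.of_subsingleton hs
    -- reduction step
    have hred : ∀ (N : Subgroup G) [N.Normal], N ≠ ⊥ → SS (G ⧸ N) := by
      intro N hN hne
      have hlt : Nat.card (G ⧸ N) ≤ n := by
        have h1 := Subgroup.card_eq_card_quotient_mul_card_subgroup N
        have h2 : 0 < Nat.card (G ⧸ N) := Nat.card_pos
        have h3 : 1 < Nat.card N := (Subgroup.one_lt_card_iff_ne_bot N).2 hne
        nlinarith
      refine ih (G ⧸ N) hlt ?_ (A.map (QuotientGroup.mk' N)) (B.map (QuotientGroup.mk' N))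
        (Subgroup.Normal.map hAn _ (QuotientGroup.mk'_surjective N))
        (Subgroup.Normal.map hBn _ (QuotientGroup.mk'_surjective N)) ?_ ?_ ?_
      · intro p q hp hq hqp
        exact (h0 p q hp hq hqp).of_surjective hp hq (QuotientGroup.mk' N)
          (QuotientGroup.mk'_surjective N)
      · rw [← Subgroup.map_sup, hAB]
        exact Subgroup.map_top_of_surjective _ (QuotientGroup.mk'_surjective N)
      · exact hA.of_surjective _ ((QuotientGroup.mk' N).subgroupMap_surjective A)
      · exact hB.of_surjective _ ((QuotientGroup.mk' N).subgroupMap_surjective B)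
    suffices hclaim : ∃ x : G, x ≠ 1 ∧ (zpowers x).Normal by
      obtain ⟨x, hx1, hxn⟩ := hclaim
      exact SS.of_zpowers x (hred _ (by
        intro h
        exact hx1 (zpowers_eq_bot.1 h)))
    by_contra hcon
    have hAne : A ≠ ⊥ := by
      rintro rfl
      rw [bot_sup_eq] at hAB
      subst hAB
      obtain ⟨x, -, hx1, hxn⟩ := (hB.of_equiv (Subgroup.topEquiv (G := G))).exists_zpowers
        (⊤ : Subgroup G) top_ne_bot
      exact hcon ⟨x, hx1, hxn⟩
    have hBne : B ≠ ⊥ := by
      rintro rfl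
      rw [sup_bot_eq] at hAB
      subst hAB
      obtain ⟨x, -, hx1, hxn⟩ := (hA.of_equiv (Subgroup.topEquiv (G := G))).exists_zpowers
        (⊤ : Subgroup G) top_ne_bot
      exact hcon ⟨x, hx1, hxn⟩
    obtain ⟨N, hN, hNA, hNne, hmin⟩ := exists_min_normal A hAne
    -- uniqueness of the minimal normal subgroup
    have huniq : ∀ M : Subgroup G, M.Normal → M ⊓ N = ⊥ → M = ⊥ := by
      intro M hM hMN
      by_contra hMne
      have h1 := hred N hNne
      have h2 : (M.map (QuotientGroup.mk' N)).Normal :=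
        Subgroup.Normal.map hM _ (QuotientGroup.mk'_surjective N)
      have h3 : M.map (QuotientGroup.mk' N) ≠ ⊥ := by
        intro h
        apply hMne
        rw [← hMN]
        apply le_antisymm _ inf_le_left
        intro x hx
        refine ⟨hx, ?_⟩
        have h4 : QuotientGroup.mk' N x ∈ M.map (QuotientGroup.mk' N) := ⟨x, hx, rfl⟩
        rw [h, mem_bot] at h4
        exact (QuotientGroup.eq_one_iff _).1 h4
      obtain ⟨_, ⟨x, hx, rfl⟩, hx1, hxn⟩ := h1.exists_zpowers _ h3
      apply hcon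
      refine ⟨x, ?_, ?_⟩
      · rintro rfl
        exact hx1 (map_one _)
      · have hconj : ∀ g : G, ∃ k : ℤ, g * x * g⁻¹ = x ^ k := by
          intro g
          obtain ⟨k, hk⟩ := hxn.conj_mem _ (mem_zpowers _) (QuotientGroup.mk' N g)
          refine ⟨k, ?_⟩
          simp only at hk
          have h4 : g * x * g⁻¹ * (x ^ k)⁻¹ ∈ M ⊓ N := by
            refine ⟨M.mul_mem (hM.conj_mem x hx g) (M.inv_mem (M.zpow_mem hx k)), ?_⟩
            apply (QuotientGroup.eq_one_iff (N := N) _).1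
            rw [← QuotientGroup.mk'_apply, map_mul, map_inv, map_zpow, hk, map_mul, map_mul,
              map_inv, mul_inv_cancel]
          rw [hMN, mem_bot, mul_inv_eq_one] at h4
          exact h4
        constructor
        rintro _ ⟨m, rfl⟩ g
        obtain ⟨k, hk⟩ := hconj g
        refine ⟨k * m, ?_⟩
        simp only
        rw [← conj_zpow, hk, zpow_mul]
    have hNB : N ≤ B := by
      have h1 : (B ⊓ N).Normal := inferInstance
      rcases hmin (B ⊓ N) h1 inf_le_right with h | h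
      · exact absurd (huniq B hBn h) hBne
      · rw [← h]
        exact inf_le_left
    obtain ⟨p, hp, hNp, hNab, hA1, hA2⟩ := min_normal_in_SS A N hA hNA hNne hmin
    obtain ⟨p', hp', hNp', -, hB1, hB2⟩ := min_normal_in_SS B N hB hNB hNne hmin
    have hpp : p' = p := by
      by_contra hne
      apply hNne
      rw [eq_bot_iff]
      intro x hx
      rw [mem_bot]
      exact eq_one_of_coprime_pow (hNp x hx) (hNp' x hx) ((Nat.coprime_primes hp hp').2
        (Ne.symm hne))
    subst hpp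
    -- the centralizer of `N`
    set C : Subgroup G := centralizer (N : Set G) with hCdef
    have hmemC : ∀ g : G, g ∈ C ↔ ∀ x ∈ N, Commute g x := by
      intro g
      rw [hCdef, mem_centralizer_iff]
      constructor
      · intro h x hx
        exact (h x hx).symm
      · intro h x hx
        exact (h x hx).symm
    have hCn : C.Normal := inferInstance
    have hsyl : ∀ q : ℕ, q.Prime → q ∣ p' - 1 → ∀ X : Subgroup G,
        (∀ x ∈ X, ∃ n : ℕ, x ^ q ^ n ∈ C) → ⁅X, X⁆ ≤ C := by
      intro q hq hqp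
      obtain ⟨K, M, hK, hM, hM1, hKM, hKX⟩ := h0 p' q hp hq hqp
      have hMbot : M = ⊥ := by
        apply huniq M hM
        rw [eq_bot_iff]
        rintro x ⟨hx1, hx2⟩
        exact hM1 x hx1 (hNp x hx2)
      have hKp : IsPGroup p' K := by
        intro x
        obtain ⟨m, hm⟩ := hKM x x.2
        refine ⟨m, Subtype.ext ?_⟩
        rw [hMbot, mem_bot] at hm
        simpa using hm
      have hKC : K ≤ C := by
        intro k hk
        rw [hmemC]
        exact centralizer_of_pgroup hp K N hKp hNne hNp hmin k hk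
      apply absyl_of_sylow hq (MonoidHom.id G) Function.surjective_id C
      intro Q hQ
      rw [Subgroup.map_id]
      refine (hKX Q ?_).trans hKC
      intro x hx
      obtain ⟨m, hm⟩ := hQ ⟨x, hx⟩
      refine ⟨m, ?_⟩
      have : x ^ q ^ m = 1 := by simpa using congrArg Subtype.val hm
      rw [this]
      exact K.one_mem
    -- work in the quotient by `C`
    let π : G →* G ⧸ C := QuotientGroup.mk' C
    have hπ : Function.Surjective π := QuotientGroup.mk'_surjective C
    have hπ1 : ∀ g : G, π g = 1 ↔ g ∈ C := fun g => QuotientGroup.eq_one_iff g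
    have hcommA : ∀ a ∈ A.map π, ∀ b ∈ A.map π, Commute a b := by
      rintro _ ⟨a, ha, rfl⟩ _ ⟨b, hb, rfl⟩
      have h1 : π (a * b * a⁻¹ * b⁻¹) = 1 := (hπ1 _).2 ((hmemC _).2 (hA2 a ha b hb))
      rw [map_mul, map_mul, map_mul, map_inv, map_inv, mul_inv_eq_one,
        mul_inv_eq_iff_eq_mul] at h1
      exact h1
    have hcommB : ∀ a ∈ B.map π, ∀ b ∈ B.map π, Commute a b := by
      rintro _ ⟨a, ha, rfl⟩ _ ⟨b, hb, rfl⟩
      have h1 : π (a * b * a⁻¹ * b⁻¹) = 1 := (hπ1 _).2 ((hmemC _).2 (hB2 a ha b hb))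
      rw [map_mul, map_mul, map_mul, map_inv, map_inv, mul_inv_eq_one,
        mul_inv_eq_iff_eq_mul] at h1
      exact h1
    have hpowA : ∀ a ∈ A.map π, a ^ (p' - 1) = 1 := by
      rintro _ ⟨a, ha, rfl⟩
      rw [← map_pow, hπ1, hmemC]
      exact hA1 a ha
    have hpowB : ∀ a ∈ B.map π, a ^ (p' - 1) = 1 := by
      rintro _ ⟨a, ha, rfl⟩
      rw [← map_pow, hπ1, hmemC]
      exact hB1 a ha
    have hAπ : (A.map π).Normal := Subgroup.Normal.map hAn _ hπ
    have hBπ : (B.map π).Normal := Subgroup.Normal.map hBn _ hπ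
    have hAB' : ∀ a ∈ A.map π, ∀ b ∈ B.map π, Commute a b := by
      apply commute_of_absyl (n := p' - 1) (by have := hp.two_le; omega) (A.map π) (B.map π)
        hcommA hcommB hpowA hpowB
      intro q hq hqn X hX x hx y hy
      have h1 := hsyl q hq hqn (X.comap π) (by
        intro g hg
        obtain ⟨m, hm⟩ := hX ⟨π g, hg⟩
        refine ⟨m, ?_⟩
        rw [← hπ1, map_pow]
        simpa using congrArg Subtype.val hm)
      obtain ⟨x', rfl⟩ := hπ x
      obtain ⟨y', rfl⟩ := hπ y
      have h2 : ⁅x', y'⁆ ∈ C := h1 (Subgroup.commutator_mem_commutator hx hy)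
      rw [← hπ1, map_commutatorElement, commutatorElement_eq_one_iff_commute] at h2
      exact h2
    have hdecomp : ∀ g : G, ∃ a ∈ A.map π, ∃ b ∈ B.map π, π g = a * b := by
      intro g
      have h1 : g ∈ A ⊔ B := by rw [hAB]; exact mem_top g
      obtain ⟨a, ha, b, hb, rfl⟩ := (Subgroup.mem_sup_of_normal_left).1 h1
      exact ⟨π a, ⟨a, ha, rfl⟩, π b, ⟨b, hb, rfl⟩, map_mul _ _ _⟩
    have hab : ∀ g h : G, Commute (π g) (π h) := by
      intro g h
      obtain ⟨a, ha, b, hb, h1⟩ := hdecomp g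
      obtain ⟨a', ha', b', hb', h2⟩ := hdecomp h
      rw [h1, h2]
      exact ((hcommA a ha a' ha').mul_right (hAB' a ha b' hb')).mul_left
        (((hAB' a' ha' b hb).symm).mul_right (hcommB b hb b' hb'))
    have hpow : ∀ g : G, (π g) ^ (p' - 1) = 1 := by
      intro g
      obtain ⟨a, ha, b, hb, h1⟩ := hdecomp g
      rw [h1, (hAB' a ha b hb).mul_pow, hpowA a ha, hpowB b hb, one_mul]
    obtain ⟨x, hxN, hx1⟩ : ∃ x ∈ N, x ≠ 1 := by
      obtain ⟨x, hx⟩ := (Subgroup.ne_bot_iff_exists_ne_one).1 hNne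
      exact ⟨x, x.2, fun h => hx (Subtype.ext h)⟩
    apply hcon
    refine ⟨x, hx1, zpowers_normal_of_minimal hp N hNne hmin hNab hNp ?_ ?_ x hxN⟩
    · intro g h y hy
      have h1 : (h * g)⁻¹ * (g * h) ∈ C := by
        rw [← hπ1, map_mul, map_inv, map_mul, map_mul, (hab g h).eq]
        group
      have h2 := (hmemC _).1 h1 y hy
      calc (g * h) * y * (g * h)⁻¹
          = (h * g) * (((h * g)⁻¹ * (g * h)) * y * ((h * g)⁻¹ * (g * h))⁻¹) * (h * g)⁻¹ := by
            group
        _ = (h * g) * y * (h * g)⁻¹ := by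
            rw [h2.eq, mul_inv_cancel_right]
    · intro g y hy
      have h1 : g ^ (p' - 1) ∈ C := by
        rw [← hπ1, map_pow]
        exact hpow g
      have h2 := (hmemC _).1 h1 y hy
      rw [h2.eq, mul_inv_cancel_right]

theorem radical {G : Type} [Group G] [Finite G] (h0 : H0 G) (A B : Subgroup G)
    (hAn : A.Normal) (hBn : B.Normal) (hA : SS A) (hB : SS B) :
    SS (A ⊔ B : Subgroup G) := by
  have hA' : SS (A.subgroupOf (A ⊔ B)) :=
    hA.of_equiv (Subgroup.subgroupOfEquivOfLe le_sup_left).symm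
  have hB' : SS (B.subgroupOf (A ⊔ B)) :=
    hB.of_equiv (Subgroup.subgroupOfEquivOfLe le_sup_right).symm
  refine radical_top _ (A ⊔ B : Subgroup G) le_rfl ?_ (A.subgroupOf (A ⊔ B))
    (B.subgroupOf (A ⊔ B)) inferInstance inferInstance ?_ hA' hB'
  · intro p q hp hq hqp
    exact (h0 p q hp hq hqp).of_injective (A ⊔ B).subtype (subtype_injective _)
  · rw [eq_top_iff]
    rintro ⟨x, hx⟩ -
    obtain ⟨a, ha, b, hb, rfl⟩ := (Subgroup.mem_sup_of_normal_left).1 hx
    have h1 : (⟨a * b, hx⟩ : (A ⊔ B : Subgroup G)) =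
        ⟨a, mem_sup_left ha⟩ * ⟨b, mem_sup_right hb⟩ := rfl
    rw [h1]
    exact mul_mem (mem_sup_left ha) (mem_sup_right hb)

end Pool.Agent.Lib.MP_b21f3c_al
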