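import Pool.Agent.Lib.MP_b21f3c_al.Loc

set_option autoImplicit false

namespace Pool.Agent.Lib.MP_b21f3c_al

open Subgroup

theorem Loc.of_frattini {p q : ℕ} (hp : p.Prime) (n : ℕ) :
    ∀ (G : Type) [Group G] [Finite G] (N : Subgroup G) [N.Normal], Nat.card N ≤ n →
      N ≤ frattini G → Loc p q (G ⧸ N) → Loc p q G := by
  induction n with
  | zero =>
    intro G _ _ N _ hc
    have : 0 < Nat.card N := Nat.card_pos
    omega
  | succ n ih =>
    intro G _ _ N hN hc hle h
    by_cases hbot : N = ⊥
    · subst hbot
      apply h.of_injective (QuotientGroup.mk' ⊥)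
      rw [← MonoidHom.ker_eq_bot_iff, QuotientGroup.ker_mk']
    · have hnil : Group.IsNilpotent N := by
        have := frattini_nilpotent (G := G)
        apply Subgroup.isNilpotent_of_ker_le_center (Subgroup.inclusion hle)
        rw [(MonoidHom.ker_eq_bot_iff _).2 (Subgroup.inclusion_injective hle)]
        exact bot_le
      have hnt : Nontrivial N := (Subgroup.nontrivial_iff_ne_bot N).2 hbot
      have hZ : center N ≠ ⊥ := Group.IsNilpotent.center_ne_bot N
      have hZc : Nat.card (center N) ≠ 1 := by
        intro h1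
        exact hZ (Subgroup.card_eq_one.1 h1)
      obtain ⟨r, hr, hdvd⟩ := Nat.exists_prime_and_dvd hZc
      have : Fact r.Prime := ⟨hr⟩
      obtain ⟨z, hz⟩ := exists_prime_orderOf_dvd_card' r hdvd
      let A : Subgroup G :=
        { carrier := {x | x ∈ N ∧ (∀ y ∈ N, x * y = y * x) ∧ x ^ r = 1}
          one_mem' := ⟨N.one_mem, by simp, one_pow _⟩
          mul_mem' := by
            rintro a b ⟨ha1, ha2, ha3⟩ ⟨hb1, hb2, hb3⟩
            refine ⟨N.mul_mem ha1 hb1, fun y hy => ?_, ?_⟩
            · rw [mul_assoc, hb2 y hy, ← mul_assoc, ha2 y hy, mul_assoc]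
            · have hcab : Commute a b := ha2 b hb1
              rw [hcab.mul_pow, ha3, hb3, one_mul]
          inv_mem' := by
            rintro a ⟨ha1, ha2, ha3⟩
            refine ⟨N.inv_mem ha1, fun y hy => ?_, ?_⟩
            · have : Commute a y := ha2 y hy
              exact this.inv_left
            · rw [inv_pow, ha3, inv_one] }
      have hA : A.Normal := by
        constructor
        rintro a ⟨ha1, ha2, ha3⟩ g
        refine ⟨hN.conj_mem a ha1 g, fun y hy => ?_, ?_⟩
        · have h1 := ha2 (g⁻¹ * y * g) (by simpa using hN.conj_mem y hy g⁻¹)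
          have h2 : g * a * g⁻¹ * y = g * (a * (g⁻¹ * y * g)) * g⁻¹ := by group
          rw [h2, h1]
          group
        · rw [conj_pow, ha3]
          simp
      have hAN : A ≤ N := fun x hx => hx.1
      have hAne : A ≠ ⊥ := by
        intro hbot'
        have hzA : ((z : N) : G) ∈ A := by
          refine ⟨(z : N).2, fun y hy => ?_, ?_⟩
          · have h1 := Subgroup.mem_center_iff.1 z.2 ⟨y, hy⟩
            exact (congrArg Subtype.val h1).symm
          · have h1 := pow_orderOf_eq_one z
            rw [hz] at h1
            have h2 := congrArg (fun t : center N => ((t : N) : G)) h1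
            simpa using h2
        rw [hbot', mem_bot] at hzA
        have : z = 1 := Subtype.ext (Subtype.ext (by simpa using hzA))
        rw [this, orderOf_one] at hz
        exact hr.one_lt.ne hz
      -- apply induction to `G ⧸ A`
      have hmapn : (N.map (QuotientGroup.mk' A)).Normal :=
        Subgroup.Normal.map hN _ (QuotientGroup.mk'_surjective A)
      have hcard : Nat.card (N.map (QuotientGroup.mk' A)) ≤ n := by
        by_contra hlt
        have hlt' : Nat.card N ≤ Nat.card (N.map (QuotientGroup.mk' A)) := by omega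
        have hbij := ((QuotientGroup.mk' A).subgroupMap_surjective N).bijective_of_nat_card_le
          hlt'
        apply hAne
        rw [eq_bot_iff]
        intro x hx
        have h1 : (QuotientGroup.mk' A).subgroupMap N ⟨x, hAN hx⟩ = 1 := by
          apply Subtype.ext
          exact (QuotientGroup.eq_one_iff _).2 hx
        have h2 := hbij.1 (h1.trans (map_one _).symm)
        rw [mem_bot]
        exact congrArg Subtype.val h2
      have hfr : N.map (QuotientGroup.mk' A) ≤ frattini (G ⧸ A) := by
        rw [Subgroup.map_le_iff_le_comap]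
        exact hle.trans (frattini_le_comap_frattini_of_surjective
          (QuotientGroup.mk'_surjective A))
      have h3 : Loc p q ((G ⧸ A) ⧸ N.map (QuotientGroup.mk' A)) :=
        h.of_injective (QuotientGroup.quotientQuotientEquivQuotient A N hAN).toMonoidHom
          (QuotientGroup.quotientQuotientEquivQuotient A N hAN).injective
      have h4 : Loc p q (G ⧸ A) := ih (G ⧸ A) (N.map (QuotientGroup.mk' A)) hcard hfr h3
      refine Loc.of_quot hp hr A ⊤ (fun a ha b hb => ha.2.1 b hb.1) (fun a ha => ha.2.2)
        le_top le_top (Or.inl (hAN.trans hle)) h4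

theorem SS.loc {p q : ℕ} (hp : p.Prime) (n : ℕ) :
    ∀ (G : Type) [Group G] [Finite G], Nat.card G ≤ n → SS G → Loc p q G := by
  induction n with
  | zero =>
    intro G _ _ hc
    have : 0 < Nat.card G := Nat.card_pos
    omega
  | succ n ih =>
    intro G _ _ hc h
    rcases subsingleton_or_nontrivial G with hs | hnt
    · refine ⟨⊥, ⊥, inferInstance, inferInstance, ?_, ?_, ?_⟩
      · intro x _ _
        exact Subsingleton.elim _ _
      · intro x _
        exact ⟨0, Subsingleton.elim _ _⟩
      · intro X _ x _
        exact Subsingleton.elim _ _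
    · obtain ⟨x, -, hx1, hxn⟩ := h.exists_zpowers (⊤ : Subgroup G) top_ne_bot
      have hord : orderOf x ≠ 1 := fun h => hx1 (orderOf_eq_one_iff.1 h)
      obtain ⟨r, hr, hdvd⟩ := Nat.exists_prime_and_dvd hord
      set y := x ^ (orderOf x / r) with hy
      have hyord : orderOf y = r := orderOf_pow_orderOf_div (orderOf_pos x).ne' hdvd
      have hyr : y ^ r = 1 := by rw [← hyord]; exact pow_orderOf_eq_one y
      have hconj : ∀ g : G, ∃ k : ℤ, g * y * g⁻¹ = y ^ k := by
        intro g
        obtain ⟨k, hk⟩ := hxn.conj_mem x (mem_zpowers x) g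
        refine ⟨k, ?_⟩
        simp only at hk
        rw [hy, ← conj_pow, ← hk, ← zpow_natCast, ← zpow_natCast, ← zpow_mul, ← zpow_mul,
          mul_comm]
      have hA : (zpowers y).Normal := by
        constructor
        rintro _ ⟨m, rfl⟩ g
        obtain ⟨k, hk⟩ := hconj g
        simp only
        rw [← conj_zpow, hk, ← zpow_mul]
        exact ⟨_, rfl⟩
      have hcent : ∀ a ∈ zpowers y, ∀ c ∈ centralizer (zpowers y : Set G), a * c = c * a :=
        fun a ha c hc => (mem_centralizer_iff.1 hc a ha)
      have hC : ⁅(⊤ : Subgroup G), ⊤⁆ ≤ centralizer (zpowers y : Set G) := by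
        rw [Subgroup.commutator_le]
        intro g _ h _
        rw [mem_centralizer_iff]
        rintro _ ⟨m, rfl⟩
        obtain ⟨k, hk⟩ := hconj g
        obtain ⟨l, hl⟩ := hconj h
        obtain ⟨k', hk'⟩ := hconj g⁻¹
        obtain ⟨l', hl'⟩ := hconj h⁻¹
        -- conjugation by g and h commute on y
        have e1 : g * h * y * h⁻¹ * g⁻¹ = h * g * y * g⁻¹ * h⁻¹ := by
          have a1 : g * h * y * h⁻¹ * g⁻¹ = g * (h * y * h⁻¹) * g⁻¹ := by group
          have a2 : h * g * y * g⁻¹ * h⁻¹ = h * (g * y * g⁻¹) * h⁻¹ := by group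
          rw [a1, a2, hl, hk, ← conj_zpow, ← conj_zpow, hk, hl, ← zpow_mul, ← zpow_mul, mul_comm]
        have e2 : Commute (g * h * g⁻¹ * h⁻¹) (h * g * y * g⁻¹ * h⁻¹) := by
          rw [Commute, SemiconjBy]
          have : g * h * g⁻¹ * h⁻¹ * (h * g * y * g⁻¹ * h⁻¹) =
            (g * h * y * h⁻¹ * g⁻¹) * (g * h * g⁻¹ * h⁻¹) := by group
          rw [this, e1]
        -- the element `h g y g⁻¹ h⁻¹` generates the same subgroup
        have e3 : y ∈ zpowers (h * g * y * g⁻¹ * h⁻¹) := by
          have h1 : zpowers (h * g * y * g⁻¹ * h⁻¹) ≤ zpowers y := by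
            rw [zpowers_le]
            have := hA.conj_mem y (mem_zpowers y) (h * g)
            simpa [mul_assoc] using this
          have h2 : Nat.card (zpowers y) ≤ Nat.card (zpowers (h * g * y * g⁻¹ * h⁻¹)) := by
            rw [Nat.card_zpowers, Nat.card_zpowers]
            have : h * g * y * g⁻¹ * h⁻¹ = (MulAut.conj (h * g)) y := by
              simp [mul_assoc]
            rw [this, MulEquiv.orderOf_eq]
          rw [Subgroup.eq_of_le_of_card_ge h1 h2]
          exact mem_zpowers y
        obtain ⟨j, hj⟩ := e3
        have e4 : Commute (g * h * g⁻¹ * h⁻¹) y := by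
          rw [← hj]
          exact e2.zpow_right j
        exact (e4.zpow_right m).symm
      have hlt : Nat.card (G ⧸ zpowers y) ≤ n := by
        have h1 := Subgroup.card_eq_card_quotient_mul_card_subgroup (zpowers y)
        rw [Nat.card_zpowers, hyord] at h1
        have h2 : 0 < Nat.card (G ⧸ zpowers y) := Nat.card_pos
        have h3 := hr.two_le
        nlinarith
      have h4 : Loc p q (G ⧸ zpowers y) :=
        ih _ hlt (h.of_surjective (QuotientGroup.mk' _) (QuotientGroup.mk'_surjective _))
      have hz : ∀ a ∈ zpowers y, ∀ b ∈ zpowers y, a * b = b * a := by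
        rintro _ ⟨m, rfl⟩ _ ⟨k, rfl⟩
        exact (Commute.refl y).zpow_zpow m k
      have hcn : (centralizer (zpowers y : Set G)).Normal := inferInstance
      refine Loc.of_quot hp hr (zpowers y) (centralizer (zpowers y : Set G)) hz ?_ ?_ hC
        (Or.inr hcent) h4
      · rintro _ ⟨m, rfl⟩
        simp only
        rw [← zpow_natCast, ← zpow_mul, mul_comm, zpow_mul, zpow_natCast, hyr, one_zpow]
      · intro a ha
        rw [mem_centralizer_iff]
        intro b hb
        exact hz b hb a ha

end Pool.Agent.Lib.MP_b21f3c_al
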