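import Pool.Agent.Lib.MP_b21f3c_al.Bad
import Pool.Agent.Lib.MP_b21f3c_al.Rad2
import Pool.Agent.Lib.MP_b21f3c_al.Sat
import Pool.Agent.Lib.MP_b21f3c_al.Frat

set_option autoImplicit false

namespace Pool.Agent.Lib.MP_b21f3c_al

open Subgroup
open scoped commutatorElement

theorem perm_apply_inv {Ω : Type} (g : Equiv.Perm Ω) (x : Ω) : g (g⁻¹ x) = x := by
  rw [← Equiv.Perm.mul_apply, mul_inv_cancel, Equiv.Perm.one_apply]

theorem perm_inv_apply {Ω : Type} (g : Equiv.Perm Ω) (x : Ω) : g⁻¹ (g x) = x := by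
  rw [← Equiv.Perm.mul_apply, inv_mul_cancel, Equiv.Perm.one_apply]

/-- Lemma N. -/
theorem exists_minimal_nonabelian {q : ℕ} (hq : q.Prime) {Q : Type} [Group Q] [Finite Q]
    (hQ : IsPGroup q Q) (a₀ b₀ : Q) (hab : ¬ Commute a₀ b₀) :
    ∃ a b c : Q, a * b = c * b * a ∧ Commute a c ∧ Commute b c ∧ c ^ q = 1 ∧ c ≠ 1 := by
  have hfact : Fact q.Prime := ⟨hq⟩
  have hnil : Group.IsNilpotent Q := hQ.isNilpotent
  -- a noncentral element, central modulo the centre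
  have hnt : Nontrivial (Q ⧸ center Q) := by
    rw [← not_subsingleton_iff_nontrivial]
    intro hs
    apply hab
    have h1 : (a₀ : Q ⧸ center Q) = 1 := Subsingleton.elim _ _
    rw [QuotientGroup.eq_one_iff] at h1
    exact (Subgroup.mem_center_iff.1 h1 b₀).symm
  have hnilq : Group.IsNilpotent (Q ⧸ center Q) := inferInstance
  have hZ := Group.IsNilpotent.center_ne_bot (Q ⧸ center Q)
  obtain ⟨z, hz⟩ := (Subgroup.ne_bot_iff_exists_ne_one).1 hZ
  obtain ⟨a, ha⟩ := QuotientGroup.mk'_surjective (center Q) (z : Q ⧸ center Q)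
  have hac : ∀ g : Q, a * g * a⁻¹ * g⁻¹ ∈ center Q := by
    intro g
    rw [← QuotientGroup.eq_one_iff, ← QuotientGroup.mk'_apply, map_mul, map_mul, map_mul,
      map_inv, map_inv, ha, mul_inv_eq_one, mul_inv_eq_iff_eq_mul]
    exact (Subgroup.mem_center_iff.1 z.2 _).symm
  have hanc : a ∉ center Q := by
    intro h
    apply hz
    apply Subtype.ext
    rw [← ha]
    exact (QuotientGroup.eq_one_iff a).2 h
  obtain ⟨b, hb⟩ : ∃ b, ¬ Commute a b := by
    by_contra hcon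
    push Not at hcon
    exact hanc (Subgroup.mem_center_iff.2 fun g => (hcon g).eq.symm)
  set c := a * b * a⁻¹ * b⁻¹ with hc
  have hcZ : ∀ g, Commute c g := fun g => (Subgroup.mem_center_iff.1 (hac b) g).symm
  have habc : a * b = c * b * a := by rw [hc]; group
  have hc1 : c ≠ 1 := by
    intro h
    rw [h, one_mul] at habc
    exact hb habc
  obtain ⟨r, hr⟩ := hQ c
  -- choose the exponent
  obtain ⟨s, hs⟩ : ∃ s, orderOf c = q ^ s := by
    obtain ⟨s, -, hs⟩ := (Nat.dvd_prime_pow hq).1 (orderOf_dvd_of_pow_eq_one hr)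
    exact ⟨s, hs⟩
  have hs0 : s ≠ 0 := by
    rintro rfl
    rw [pow_zero, orderOf_eq_one_iff] at hs
    exact hc1 hs
  obtain ⟨s', rfl⟩ := Nat.exists_eq_succ_of_ne_zero hs0
  refine ⟨a ^ q ^ s', b, c ^ q ^ s', ?_, ?_, ?_, ?_, ?_⟩
  · have := central_comm_pow habc (hcZ a).symm (hcZ b).symm (q ^ s') 1
    simpa using this
  · exact ((hcZ _).pow_left _).symm
  · exact ((hcZ _).pow_left _).symm
  · rw [← pow_mul, ← pow_succ, ← hs]
    exact pow_orderOf_eq_one c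
  · intro h
    have h1 := orderOf_dvd_of_pow_eq_one h
    rw [hs] at h1
    have h2 := (Nat.pow_dvd_pow_iff_le_right hq.one_lt).1 h1
    omega

/-- Lemma P. -/
theorem exists_free_point {q r : ℕ} (hq : q.Prime) {Ω : Type} [Nonempty Ω]
    (a : Equiv.Perm Ω) (ha : a ^ q ^ r = 1) :
    ∃ ω : Ω, ∀ i : ℤ, (a ^ i) ω = ω → a ^ i = 1 := by
  classical
  obtain ⟨s, -, hs⟩ := (Nat.dvd_prime_pow hq).1 (orderOf_dvd_of_pow_eq_one ha)
  rcases Nat.eq_zero_or_pos s with rfl | hspos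
  · rw [pow_zero, orderOf_eq_one_iff] at hs
    obtain ⟨ω⟩ := (inferInstance : Nonempty Ω)
    refine ⟨ω, fun i _ => ?_⟩
    rw [hs, one_zpow]
  · have h1 : a ^ q ^ (s - 1) ≠ 1 := by
      intro h
      have h1 := orderOf_dvd_of_pow_eq_one h
      rw [hs] at h1
      have h2 := (Nat.pow_dvd_pow_iff_le_right hq.one_lt).1 h1
      omega
    obtain ⟨ω, hω⟩ : ∃ ω, (a ^ q ^ (s - 1)) ω ≠ ω := by
      by_contra hcon
      push Not at hcon
      exact h1 (Equiv.ext hcon)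
    refine ⟨ω, fun i hi => ?_⟩
    -- the stabilizer as a subgroup of the integers
    let St : AddSubgroup ℤ :=
      { carrier := {j | (a ^ j) ω = ω}
        zero_mem' := by simp
        add_mem' := by
          intro x y hx hy
          change (a ^ (x + y)) ω = ω
          rw [zpow_add, Equiv.Perm.mul_apply, hy, hx]
        neg_mem' := by
          intro x hx
          change (a ^ (-x)) ω = ω
          rw [zpow_neg, Equiv.Perm.inv_eq_iff_eq]
          exact hx.symm }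
    obtain ⟨d, hd⟩ := Int.subgroup_cyclic St |>.imp fun d hd => hd
    have hmem : ∀ j : ℤ, (a ^ j) ω = ω ↔ d ∣ j := by
      intro j
      have h2 : j ∈ St ↔ d ∣ j := by
        rw [hd, AddSubgroup.mem_closure_singleton]
        constructor
        · rintro ⟨n, rfl⟩
          exact ⟨n, by rw [smul_eq_mul, mul_comm]⟩
        · rintro ⟨n, rfl⟩
          exact ⟨n, by rw [smul_eq_mul, mul_comm]⟩
      exact h2
    have h3 : d ∣ ((q ^ s : ℕ) : ℤ) := by
      rw [← hmem, zpow_natCast, ← hs, pow_orderOf_eq_one]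
      rfl
    have h4 : ¬ d ∣ ((q ^ (s - 1) : ℕ) : ℤ) := by
      rw [← hmem, zpow_natCast]
      exact hω
    have h5 : d.natAbs ∣ q ^ s := Int.natAbs_dvd_natAbs.2 h3
    obtain ⟨t, ht, hdt⟩ := (Nat.dvd_prime_pow hq).1 h5
    have h6 : t = s := by
      by_contra hne
      apply h4
      rw [← Int.natAbs_dvd, hdt, Int.natCast_dvd_natCast]
      exact Nat.pow_dvd_pow q (by omega)
    have h7 : ((q ^ s : ℕ) : ℤ) ∣ i := by
      have h8 := (hmem i).1 hi
      rw [← Int.natAbs_dvd, hdt, h6] at h8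
      exact h8
    obtain ⟨k, rfl⟩ := h7
    rw [zpow_mul, zpow_natCast, ← hs, pow_orderOf_eq_one, one_zpow]

/-- product of permutation representations -/
def prodPerm {Γ₁ Γ₂ Ω₁ Ω₂ : Type} [Group Γ₁] [Group Γ₂] (φ₁ : Γ₁ →* Equiv.Perm Ω₁)
    (φ₂ : Γ₂ →* Equiv.Perm Ω₂) : Γ₁ × Γ₂ →* Equiv.Perm (Ω₁ × Ω₂) where
  toFun g := Equiv.prodCongr (φ₁ g.1) (φ₂ g.2)
  map_one' := by
    ext x <;> simp
  map_mul' := by
    intro g h
    ext x <;> simp

@[simp] theorem prodPerm_apply {Γ₁ Γ₂ Ω₁ Ω₂ : Type} [Group Γ₁] [Group Γ₂]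
    (φ₁ : Γ₁ →* Equiv.Perm Ω₁) (φ₂ : Γ₂ →* Equiv.Perm Ω₂) (g : Γ₁ × Γ₂) (x : Ω₁ × Ω₂) :
    prodPerm φ₁ φ₂ g x = (φ₁ g.1 x.1, φ₂ g.2 x.2) := rfl

/-- pulling back the action along an injective homomorphism -/
def sdMap {p : ℕ} {Δ Γ Ω : Type} [Group Δ] [Group Γ] (φ : Δ →* Equiv.Perm Ω) (j : Γ →* Δ) :
    SD (actFun p (φ.comp j)) →* SD (actFun p φ) where
  toFun y := ⟨y.v, j y.g⟩
  map_one' := by
    apply SD.ext <;> simp
  map_mul' := by
    intro x y
    apply SD.ext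
    · rfl
    · simp

/-- The abstract contradiction: faithful permutation representation with a transitive normal
`p`-subgroup and noncommuting elements of a `q`-subgroup. -/
theorem Cl.contra {H : (G : Type) → [Group G] → Prop} (h : Cl H) {p q : ℕ} (hp : p.Prime)
    (hq : q.Prime) (hqp : q ∣ p - 1) {Ω : Type} [Finite Ω] [Nonempty Ω]
    (T : Subgroup (Equiv.Perm Ω)) (hT : H T) (P : Subgroup T) [hPn : P.Normal]
    (hP : IsPGroup p P) (htrans : ∀ τ τ' : Ω, ∃ x ∈ P, (x : Equiv.Perm Ω) τ = τ')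
    (Q : Subgroup T) (hQ : IsPGroup q Q) (a₀ b₀ : T) (ha₀ : a₀ ∈ Q) (hb₀ : b₀ ∈ Q)
    (hab₀ : ¬ Commute a₀ b₀) : False := by
  classical
  have hfact : Fact p.Prime := ⟨hp⟩
  obtain ⟨⟨a, haQ⟩, ⟨b, hbQ⟩, ⟨c, hcQ⟩, hab, hac, hbc, hcq, hc1⟩ :=
    exists_minimal_nonabelian hq hQ ⟨a₀, ha₀⟩ ⟨b₀, hb₀⟩ (by
      intro hcm
      apply hab₀
      exact congrArg Subtype.val hcm.eq)
  have hab' : a * b = c * b * a := congrArg Subtype.val hab
  have hac' : a * c = c * a := congrArg Subtype.val hac.eq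
  have hbc' : b * c = c * b := congrArg Subtype.val hbc.eq
  have hcq' : c ^ q = 1 := by
    have := congrArg Subtype.val hcq
    simpa using this
  have hc1' : c ≠ 1 := fun h => hc1 (Subtype.ext h)
  obtain ⟨ra, hra⟩ := hQ ⟨a, haQ⟩
  obtain ⟨rb, hrb⟩ := hQ ⟨b, hbQ⟩
  have hra' : (a : Equiv.Perm Ω) ^ q ^ ra = 1 := by
    have := congrArg (fun t : Q => ((t : T) : Equiv.Perm Ω)) hra
    simpa using this
  have hrb' : (b : Equiv.Perm Ω) ^ q ^ rb = 1 := by
    have := congrArg (fun t : Q => ((t : T) : Equiv.Perm Ω)) hrb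
    simpa using this
  obtain ⟨ω₁, hω₁⟩ : ∃ ω, (c : Equiv.Perm Ω) ω ≠ ω := by
    by_contra hcon
    push Not at hcon
    exact hc1' (Subtype.ext (Equiv.ext hcon))
  obtain ⟨ω₂, hω₂⟩ := exists_free_point hq (a : Equiv.Perm Ω) hra'
  obtain ⟨ω₃, hω₃⟩ := exists_free_point hq (b : Equiv.Perm Ω) hrb'
  -- the triple product
  let φ : T × (T × T) →* Equiv.Perm (Ω × (Ω × Ω)) :=
    prodPerm T.subtype (prodPerm T.subtype T.subtype)
  let P3 : Subgroup (T × (T × T)) := P.prod (P.prod P)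
  have hP3 : IsPGroup p P3 := by
    rintro ⟨⟨x, y, z⟩, hx, hy, hz⟩
    obtain ⟨i, hi⟩ := hP ⟨x, hx⟩
    obtain ⟨j, hj⟩ := hP ⟨y, hy⟩
    obtain ⟨k, hk⟩ := hP ⟨z, hz⟩
    have hi' : x ^ p ^ i = 1 := by simpa using congrArg Subtype.val hi
    have hj' : y ^ p ^ j = 1 := by simpa using congrArg Subtype.val hj
    have hk' : z ^ p ^ k = 1 := by simpa using congrArg Subtype.val hk
    refine ⟨i + j + k, Subtype.ext ?_⟩
    change ((x, (y, z)) : T × (T × T)) ^ p ^ (i + j + k) = 1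
    rw [Prod.pow_mk, Prod.pow_mk]
    have e1 : x ^ p ^ (i + j + k) = 1 := by
      rw [add_assoc, pow_add, pow_mul, hi', one_pow]
    have e2 : y ^ p ^ (i + j + k) = 1 := by
      rw [add_comm i j, add_assoc, pow_add, pow_mul, hj', one_pow]
    have e3 : z ^ p ^ (i + j + k) = 1 := by
      rw [add_comm (i + j) k, pow_add, pow_mul, hk', one_pow]
    rw [e1, e2, e3]
    rfl
  have hP3n : P3.Normal := by
    have : (P.prod P).Normal := Subgroup.prod_normal P P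
    exact Subgroup.prod_normal P (P.prod P)
  have htrans3 : ∀ τ τ' : Ω × (Ω × Ω), ∃ x ∈ P3, φ x τ = τ' := by
    rintro ⟨x, y, z⟩ ⟨x', y', z'⟩
    obtain ⟨g1, hg1, e1⟩ := htrans x x'
    obtain ⟨g2, hg2, e2⟩ := htrans y y'
    obtain ⟨g3, hg3, e3⟩ := htrans z z'
    refine ⟨(g1, (g2, g3)), ⟨hg1, hg2, hg3⟩, ?_⟩
    simp only [φ, prodPerm_apply, Subgroup.coe_subtype, e1, e2, e3]
  have hT3 : H (T × (T × T)) := h.prod hT (h.prod hT hT)
  have hW : H (SD (actFun p φ)) := h.wreath hp φ P3 hP3 htrans3 hT3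
  let a3 : T × (T × T) := (a, (a, 1))
  let b3 : T × (T × T) := (b, (1, b))
  let c3 : T × (T × T) := (c, (1, 1))
  let Γ : Subgroup (T × (T × T)) := closure {a3, b3}
  have haΓ : a3 ∈ Γ := subset_closure (by simp)
  have hbΓ : b3 ∈ Γ := subset_closure (by simp)
  have hab3 : a3 * b3 = c3 * b3 * a3 := by
    apply Prod.ext
    · exact hab'
    · apply Prod.ext
      · simp [a3, b3, c3]
      · simp [a3, b3, c3]
  have hcΓ : c3 ∈ Γ := by
    have : c3 = a3 * b3 * a3⁻¹ * b3⁻¹ := by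
      rw [hab3]
      group
    rw [this]
    exact Γ.mul_mem (Γ.mul_mem (Γ.mul_mem haΓ hbΓ) (Γ.inv_mem haΓ)) (Γ.inv_mem hbΓ)
  have hWΓ : H (SD (actFun p (φ.comp Γ.subtype))) := by
    apply h.of_inj (sdMap φ Γ.subtype) _ hW
    intro x y hxy
    have e1 : (sdMap φ Γ.subtype x).v = (sdMap φ Γ.subtype y).v := by rw [hxy]
    have e2 : (sdMap φ Γ.subtype x).g = (sdMap φ Γ.subtype y).g := by rw [hxy]
    apply SD.ext
    · exact e1
    · exact Subtype.ext e2
  have hac3 : a3 * c3 = c3 * a3 := by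
    apply Prod.ext
    · exact hac'
    · apply Prod.ext
      · simp [a3, c3]
      · simp [a3, c3]
  have hbc3 : b3 * c3 = c3 * b3 := by
    apply Prod.ext
    · exact hbc'
    · apply Prod.ext
      · simp [b3, c3]
      · simp [b3, c3]
  -- `a^q` commutes with `b`
  have haqb : Commute (a ^ q) b := by
    have h1 := central_comm_pow hab' hac' hbc' q 1
    rw [mul_one, hcq', one_mul, pow_one] at h1
    exact h1
  have haqbq3 : Commute (a3 ^ q) (b3 ^ q) := by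
    have h1 : Commute (a ^ q) (b ^ q) := haqb.pow_right q
    rw [Commute, SemiconjBy]
    simp only [a3, b3, Prod.pow_mk, Prod.mk_mul_mk, one_pow, mul_one, one_mul, h1.eq]
  let ω : Ω × (Ω × Ω) := (ω₁, (ω₂, ω₃))
  let O : Set (Ω × (Ω × Ω)) :=
    {τ | ∃ i j : ℤ, τ = φ ((a3 ^ q) ^ i * (b3 ^ q) ^ j) ω}
  let v : Ω × (Ω × Ω) → ZMod p := fun τ => if τ ∈ O then 1 else 0
  have hinv : ∀ (g : T × (T × T)), (∀ τ, φ g τ ∈ O ↔ τ ∈ O) →
      ∀ τ, v ((φ g)⁻¹ τ) = v τ := by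
    intro g hg τ
    have h1 := hg ((φ g)⁻¹ τ)
    rw [perm_apply_inv] at h1
    simp only [v]
    by_cases h2 : τ ∈ O
    · rw [if_pos h2, if_pos (h1.1 h2)]
    · rw [if_neg h2, if_neg fun h3 => h2 (h1.2 h3)]
  have hshift : ∀ (g : T × (T × T)) (m n : ℤ), g = (a3 ^ q) ^ m * (b3 ^ q) ^ n →
      ∀ τ, τ ∈ O → φ g τ ∈ O := by
    rintro g m n rfl τ ⟨i, j, rfl⟩
    refine ⟨m + i, n + j, ?_⟩
    rw [← Equiv.Perm.mul_apply, ← map_mul]
    congr 2
    have h1 : Commute ((b3 ^ q) ^ n) ((a3 ^ q) ^ i) := (haqbq3.symm).zpow_zpow n i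
    calc (a3 ^ q) ^ m * (b3 ^ q) ^ n * ((a3 ^ q) ^ i * (b3 ^ q) ^ j)
        = (a3 ^ q) ^ m * ((b3 ^ q) ^ n * (a3 ^ q) ^ i) * (b3 ^ q) ^ j := by
          simp only [mul_assoc]
      _ = (a3 ^ q) ^ m * ((a3 ^ q) ^ i * (b3 ^ q) ^ n) * (b3 ^ q) ^ j := by rw [h1.eq]
      _ = ((a3 ^ q) ^ m * (a3 ^ q) ^ i) * ((b3 ^ q) ^ n * (b3 ^ q) ^ j) := by
          simp only [mul_assoc]
      _ = _ := by rw [← zpow_add, ← zpow_add]
  have hOa : ∀ τ, φ (a3 ^ q) τ ∈ O ↔ τ ∈ O := by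
    intro τ
    constructor
    · intro h1
      have h2 := hshift ((a3 ^ q)⁻¹) (-1) 0 (by simp) _ h1
      rw [map_inv, perm_inv_apply] at h2
      exact h2
    · exact hshift (a3 ^ q) 1 0 (by simp) τ
  have hOb : ∀ τ, φ (b3 ^ q) τ ∈ O ↔ τ ∈ O := by
    intro τ
    constructor
    · intro h1
      have h2 := hshift ((b3 ^ q)⁻¹) 0 (-1) (by simp) _ h1
      rw [map_inv, perm_inv_apply] at h2
      exact h2
    · exact hshift (b3 ^ q) 0 1 (by simp) τ
  have hgen : closure {(⟨a3, haΓ⟩ : Γ), ⟨b3, hbΓ⟩} = ⊤ := by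
    have h1 := Subgroup.closure_closure_coe_preimage (k := {a3, b3})
    rw [← h1]
    congr 1
    ext ⟨x, hx⟩
    simp [Subtype.ext_iff]
  refine h.bad hp hq hqp (actFun p (φ.comp Γ.subtype)) ?_ hWΓ ⟨a3, haΓ⟩ ⟨b3, hbΓ⟩ ⟨c3, hcΓ⟩
    (Subtype.ext hab3) (Subtype.ext hac3) (Subtype.ext hbc3) (Subtype.ext ?_) hgen v ?_ ?_ ?_
  · intro f
    funext x
    simp
  · change c3 ^ q = 1
    simp only [c3, Prod.pow_mk, hcq', one_pow]
    rfl
  · funext τ
    exact hinv (a3 ^ q) hOa τ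
  · funext τ
    exact hinv (b3 ^ q) hOb τ
  · intro hcv
    have h1 := congrFun hcv (φ c3 ω)
    have h2 : v ω = v (φ c3 ω) := by
      have h3 : (actFun p (φ.comp Γ.subtype)).a ⟨c3, hcΓ⟩ v (φ c3 ω) = v ω := by
        change v ((φ c3)⁻¹ (φ c3 ω)) = v ω
        rw [perm_inv_apply]
      rw [← h3]
      exact h1
    have h3 : ω ∈ O := ⟨0, 0, by simp⟩
    have h4 : φ c3 ω ∉ O := by
      rintro ⟨i, j, hij⟩
      have e1 : (c : Equiv.Perm Ω) ω₁ = (((a ^ q) ^ i * (b ^ q) ^ j : T) : Equiv.Perm Ω) ω₁ := by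
        have := congrArg Prod.fst hij
        simpa [φ, ω, a3, b3, c3] using this
      have e2 : ω₂ = ((((a ^ q) ^ i : T)) : Equiv.Perm Ω) ω₂ := by
        have := congrArg (fun t => t.2.1) hij
        simpa [φ, ω, a3, b3, c3] using this
      have e3 : ω₃ = ((((b ^ q) ^ j : T)) : Equiv.Perm Ω) ω₃ := by
        have := congrArg (fun t => t.2.2) hij
        simpa [φ, ω, a3, b3, c3] using this
      have f2 : (a ^ q) ^ i = 1 := by
        have h5 := hω₂ (q * i) (by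
          have h6 : ((a : Equiv.Perm Ω) ^ ((q : ℤ) * i)) = (((a ^ q) ^ i : T) : Equiv.Perm Ω) := by
            rw [zpow_mul, zpow_natCast]
            rfl
          rw [h6]
          exact e2.symm)
        apply Subtype.ext
        rw [zpow_mul, zpow_natCast] at h5
        exact h5
      have f3 : (b ^ q) ^ j = 1 := by
        have h5 := hω₃ (q * j) (by
          have h6 : ((b : Equiv.Perm Ω) ^ ((q : ℤ) * j)) = (((b ^ q) ^ j : T) : Equiv.Perm Ω) := by
            rw [zpow_mul, zpow_natCast]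
            rfl
          rw [h6]
          exact e3.symm)
        apply Subtype.ext
        rw [zpow_mul, zpow_natCast] at h5
        exact h5
      rw [f2, f3, one_mul] at e1
      exact hω₁ e1
    simp only [v] at h2
    rw [if_pos h3, if_neg h4] at h2
    exact one_ne_zero h2

end Pool.Agent.Lib.MP_b21f3c_al
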