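import Mathlib

set_option autoImplicit false

namespace Pool.Agent.Lib.MP_b21f3c_al

open Subgroup

/-- Supersolubility, exactly as in the frozen statement. -/
def SS (G : Type) [Group G] : Prop :=
  ∃ (n : ℕ) (s : Fin (n + 1) → Subgroup G), s 0 = ⊥ ∧ s (Fin.last n) = ⊤ ∧
    (∀ i, (s i).Normal) ∧
    ∀ i : Fin n, s i.castSucc ≤ s i.succ ∧
      ∃ g ∈ s i.succ, ∀ x ∈ s i.succ, ∃ k : ℤ, x * (g ^ k)⁻¹ ∈ s i.castSucc

/-- cyclic modulo a normal subgroup passes to smaller subgroups -/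
theorem cycMod_of_le {G : Type} [Group G] (S' S D : Subgroup G) [hN : S'.Normal]
    (h : ∃ g ∈ S, ∀ x ∈ S, ∃ k : ℤ, x * (g ^ k)⁻¹ ∈ S') (hD : D ≤ S) :
    ∃ g ∈ D, ∀ x ∈ D, ∃ k : ℤ, x * (g ^ k)⁻¹ ∈ S' := by
  obtain ⟨g, hg, hgen⟩ := h
  have hle : D.map (QuotientGroup.mk' S') ≤ zpowers (QuotientGroup.mk' S' g) := by
    rintro _ ⟨x, hx, rfl⟩
    obtain ⟨k, hk⟩ := hgen x (hD hx)
    refine ⟨k, ?_⟩
    simp only
    rw [← map_zpow]
    have : (QuotientGroup.mk' S') (x * (g ^ k)⁻¹) = 1 := (QuotientGroup.eq_one_iff _).2 hk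
    rw [map_mul, map_inv, mul_inv_eq_one] at this
    exact this.symm
  haveI : IsCyclic (D.map (QuotientGroup.mk' S')) :=
    isCyclic_of_injective (Subgroup.inclusion hle) (Subgroup.inclusion_injective hle)
  obtain ⟨⟨y, hy⟩, hygen⟩ := IsCyclic.exists_generator (α := D.map (QuotientGroup.mk' S'))
  obtain ⟨d, hd, rfl⟩ := hy
  refine ⟨d, hd, fun x hx => ?_⟩
  obtain ⟨k, hk⟩ := hygen ⟨QuotientGroup.mk' S' x, ⟨x, hx, rfl⟩⟩
  refine ⟨k, ?_⟩
  have h1 : (QuotientGroup.mk' S' d) ^ k = QuotientGroup.mk' S' x := by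
    simpa using congrArg Subtype.val hk
  rw [← QuotientGroup.eq_one_iff, ← QuotientGroup.mk'_apply, map_mul, map_inv, map_zpow, h1,
    mul_inv_cancel]

theorem SS.of_surjective {G G' : Type} [Group G] [Group G'] (f : G →* G')
    (hf : Function.Surjective f) (h : SS G) : SS G' := by
  obtain ⟨n, s, h0, h1, hn, hs⟩ := h
  refine ⟨n, fun i => (s i).map f, ?_, ?_, ?_, ?_⟩
  · simp [h0]
  · simp only [h1]
    exact Subgroup.map_top_of_surjective f hf
  · intro i
    haveI := hn i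
    exact Subgroup.Normal.map inferInstance f hf
  · intro i
    obtain ⟨hle, g, hg, hgen⟩ := hs i
    refine ⟨Subgroup.map_mono hle, f g, ⟨g, hg, rfl⟩, ?_⟩
    rintro _ ⟨x, hx, rfl⟩
    obtain ⟨k, hk⟩ := hgen x hx
    exact ⟨k, ⟨_, hk, by simp⟩⟩

theorem SS.of_injective {G G' : Type} [Group G] [Group G'] (f : G' →* G)
    (hf : Function.Injective f) (h : SS G) : SS G' := by
  obtain ⟨n, s, h0, h1, hn, hs⟩ := h
  refine ⟨n, fun i => (s i).comap f, ?_, ?_, ?_, ?_⟩
  · simp only [h0]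
    exact (MonoidHom.ker_eq_bot_iff f).2 hf
  · simp [h1]
  · intro i
    haveI := hn i
    infer_instance
  · intro i
    obtain ⟨hle, hc⟩ := hs i
    haveI := hn i.castSucc
    refine ⟨Subgroup.comap_mono hle, ?_⟩
    obtain ⟨g, ⟨hg, ⟨g', hg'⟩⟩, hgen⟩ := cycMod_of_le (s i.castSucc) (s i.succ)
      (s i.succ ⊓ f.range) hc inf_le_left
    refine ⟨g', by simpa [hg'] using hg, fun x hx => ?_⟩
    obtain ⟨k, hk⟩ := hgen (f x) ⟨hx, ⟨x, rfl⟩⟩
    refine ⟨k, ?_⟩
    simpa [hg'] using hk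

theorem SS.of_equiv {G G' : Type} [Group G] [Group G'] (e : G ≃* G') (h : SS G) : SS G' :=
  h.of_surjective e.toMonoidHom e.surjective

theorem SS.of_subsingleton {G : Type} [Group G] (h : Subsingleton G) : SS G := by
  refine ⟨0, fun _ => ⊥, rfl, ?_, fun _ => inferInstance, fun i => i.elim0⟩
  exact Subsingleton.elim _ _

theorem SS.of_cyclic_normal {G : Type} [Group G] (N : Subgroup G) [N.Normal]
    (hN : ∃ g ∈ N, ∀ x ∈ N, ∃ k : ℤ, x * (g ^ k)⁻¹ ∈ (⊥ : Subgroup G)) (h : SS (G ⧸ N)) :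
    SS G := by
  obtain ⟨n, s, h0, h1, hn, hs⟩ := h
  refine ⟨n + 1, Fin.cons ⊥ (fun i => (s i).comap (QuotientGroup.mk' N)), ?_, ?_, ?_, ?_⟩
  · simp
  · rw [← Fin.succ_last, Fin.cons_succ, h1]
    simp
  · intro i
    refine Fin.cases ?_ (fun i => ?_) i
    · simp only [Fin.cons_zero]
      infer_instance
    · simp only [Fin.cons_succ]
      haveI := hn i
      infer_instance
  · intro i
    refine Fin.cases ?_ (fun i => ?_) i
    · refine ⟨by simp, ?_⟩
      simp only [Fin.castSucc_zero, Fin.cons_zero, Fin.cons_succ, h0]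
      obtain ⟨g, hg, hgen⟩ := hN
      refine ⟨g, by simpa using hg, fun x hx => hgen x (by simpa using hx)⟩
    · simp only [Fin.cons_succ, ← Fin.succ_castSucc]
      obtain ⟨hle, g, hg, hgen⟩ := hs i
      refine ⟨Subgroup.comap_mono hle, ?_⟩
      obtain ⟨g', rfl⟩ := QuotientGroup.mk'_surjective N g
      refine ⟨g', hg, fun x hx => ?_⟩
      obtain ⟨k, hk⟩ := hgen (QuotientGroup.mk' N x) hx
      refine ⟨k, ?_⟩
      simpa using hk

theorem SS.of_zpowers {G : Type} [Group G] (x : G) [(zpowers x).Normal]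
    (h : SS (G ⧸ zpowers x)) : SS G := by
  refine SS.of_cyclic_normal (zpowers x) ⟨x, mem_zpowers x, ?_⟩ h
  rintro _ ⟨k, rfl⟩
  exact ⟨k, by simp⟩

/-- A nontrivial normal subgroup of a supersoluble group contains a nontrivial cyclic normal
subgroup of the whole group. -/
theorem SS.exists_zpowers {G : Type} [Group G] (h : SS G) (L : Subgroup G) [hL : L.Normal]
    (hne : L ≠ ⊥) : ∃ x ∈ L, x ≠ 1 ∧ (zpowers x).Normal := by
  obtain ⟨n, s, h0, h1, hn, hs⟩ := h
  by_contra hcon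
  have key : ∀ i : Fin (n + 1), s i ⊓ L = ⊥ := by
    intro i
    induction i using Fin.induction with
    | zero => simp [h0]
    | succ i ih =>
      obtain ⟨hle, hc⟩ := hs i
      haveI := hn i.castSucc
      haveI := hn i.succ
      obtain ⟨g, hg, hgen⟩ := cycMod_of_le (s i.castSucc) (s i.succ)
        (s i.succ ⊓ L) hc inf_le_left
      have hz : zpowers g = s i.succ ⊓ L := by
        apply le_antisymm
        · exact (zpowers_le).2 hg
        · intro y hy
          obtain ⟨k, hk⟩ := hgen y hy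
          have : y * (g ^ k)⁻¹ ∈ s i.castSucc ⊓ L :=
            ⟨hk, L.mul_mem hy.2 (L.inv_mem (L.zpow_mem hg.2 k))⟩
          rw [ih, mem_bot, mul_inv_eq_one] at this
          exact ⟨k, this.symm⟩
      by_contra hne'
      apply hcon
      refine ⟨g, hg.2, ?_, ?_⟩
      · rintro rfl
        apply hne'
        rw [← hz]
        simp
      · rw [hz]
        infer_instance
  have := key (Fin.last n)
  rw [h1, top_inf_eq] at this
  exact hne this

end Pool.Agent.Lib.MP_b21f3c_al
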